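import Mathlib

/-!
# PL trisections given by vertex labellings

Everything here is finite combinatorics of simplicial complexes on the vertex set `Fin n`,
together with the geometric realisation of such a complex.

* A complex is given by its set `K` of facets; `faces K` is the set of all its simplices and
  `Body K` its geometric realisation (barycentric coordinates), a topological space.
* `Flip` is the bistellar (Pachner) move, `IsPLSphere` says that a complex can be turned into the
  boundary of a simplex by bistellar moves, `IsClosedManifold d K` says that `K` is a closed
  combinatorial `d`-manifold (all vertex links are PL spheres).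
* A labelling `L : Fin n → Fin 3` of the vertices is the same as a simplicial map
  `w : Body K → Δ²`, whose coordinates are the functions `weight L · i`.  The three corner regions
  `{w i ≥ w j for all j}` of the triangle `Δ²` have preimages `sector K L i`, and the barycentre of
  the triangle has preimage `core K L`.
* `cells K L J` is the set of simplices whose set of labels is exactly `J`.  It is the set of cells
  of the preimage of the barycentre of the face `J` of `Δ²`, a simplex `s` contributing a cell of
  dimension `s.card - J.card`.
* `IsTrisection K L g k` is the criterion of Bell, Hass, Rubinstein and Tillmann (Computing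
  trisections of 4-manifolds, PNAS 2018) for `L` to define a `(g;k,k,k)`-trisection: the sector
  `sector K L i` is a regular neighbourhood of the full subcomplex on the vertices with label `i`,
  so it is a 4-dimensional 1-handlebody of genus `k` if that subcomplex collapses onto a connected
  graph with first Betti number `k`; the intersection of the sectors `i` and `j` is a regular
  neighbourhood, in a 3-manifold, of the preimage of the barycentre of the edge `{i, j}`, so it is a
  handlebody of genus `g` if that cell complex collapses onto a connected graph with first Betti
  number `g`; the core is a closed connected surface of Euler characteristic `2 - 2 g`.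
-/

open Finset

namespace Pool.Agent.TH640

/-- A finite family of finite sets of vertices (used for complexes given by their facets, and for
families of simplices). -/
abbrev Fam (n : ℕ) := Finset (Finset (Fin n))

variable {n : ℕ}

/-- The simplices of the complex with facets `K`: nonempty subsets of facets. -/
def faces (K : Fam n) : Fam n := univ.filter fun s => s.Nonempty ∧ ∃ F ∈ K, s ⊆ F

open Classical in
/-- The support of a point: the set of vertices at which its barycentric coordinate is nonzero. -/
noncomputable def supp (x : Fin n → ℝ) : Finset (Fin n) := univ.filter fun v => x v ≠ 0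

/-- The union of the open simplices spanned by the members of `S`, in `Fin n → ℝ`. -/
def realize (S : Fam n) : Set (Fin n → ℝ) :=
  {x | (∀ v, 0 ≤ x v) ∧ ∑ v, x v = 1 ∧ supp x ∈ S}

/-- The geometric realisation of the complex with facets `K`. -/
abbrev Body (K : Fam n) : Type := realize (faces K)

/-! ### Combinatorial manifolds -/

/-- The link of the vertex `v`, given by its facets. -/
def link (K : Fam n) (v : Fin n) : Fam n := (K.filter fun F => v ∈ F).image fun F => F.erase v

/-- The boundary of the simplex `D`, given by its facets. -/
def bdry (D : Finset (Fin n)) : Fam n := D.image fun v => D.erase v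

/-- A bistellar move (Pachner move) from `K` to `K'`: inside the simplex `A ∪ B` the star
`B * ∂A` of the face `B` is replaced by `A * ∂B`. -/
def Flip (K K' : Fam n) : Prop :=
  ∃ A B : Finset (Fin n), A.Nonempty ∧ B.Nonempty ∧ Disjoint A B ∧
    (K.filter fun F => B ⊆ F) = A.image (fun v => (A ∪ B).erase v) ∧
    (K'.filter fun F => A ⊆ F) = B.image (fun v => (A ∪ B).erase v) ∧
    (K.filter fun F => ¬ B ⊆ F) = (K'.filter fun F => ¬ A ⊆ F)

/-- `K` is a PL sphere of dimension `d`: it can be turned into the boundary of a
`(d+1)`-dimensional simplex by finitely many bistellar moves. -/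
def IsPLSphere (d : ℕ) (K : Fam n) : Prop :=
  ∃ D : Finset (Fin n), D.card = d + 2 ∧ Relation.ReflTransGen Flip K (bdry D)

/-- `K` is (the set of facets of) a closed combinatorial manifold of dimension `d+1`: all facets
are `(d+1)`-dimensional and the link of every vertex is a PL sphere of dimension `d`. -/
def IsClosedManifold (d : ℕ) (K : Fam n) : Prop :=
  (∀ F ∈ K, F.card = d + 2) ∧ ∀ v, (∃ F ∈ K, v ∈ F) → IsPLSphere d (link K v)

/-- A family of cells (simplices ordered by inclusion) is connected. -/
def IsConn (S : Fam n) : Prop :=
  S.Nonempty ∧ ∀ s ∈ S, ∀ t ∈ S,
    Relation.ReflTransGen (fun a b => a ∈ S ∧ b ∈ S ∧ (a ⊆ b ∨ b ⊆ a)) s t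

/-- The complex with facets `K` is orientable: there are signs of the facets (each facet being
ordered increasingly) for which the sum of the facets is a simplicial cycle. -/
def IsOrientable (K : Fam n) : Prop :=
  ∃ ε : Finset (Fin n) → ℤ, (∀ F ∈ K, ε F = 1 ∨ ε F = -1) ∧
    ∀ R : Finset (Fin n), ∑ v ∈ univ.filter (fun v => v ∉ R ∧ insert v R ∈ K),
      (-1 : ℤ) ^ (R.filter (fun u => u < v)).card * ε (insert v R) = 0

/-! ### Trisections from labellings -/

/-- The coordinate `i` of the simplicial map `Body K → Δ²` given by the labelling `L`. -/
noncomputable def weight (L : Fin n → Fin 3) (x : Fin n → ℝ) (i : Fin 3) : ℝ :=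
  ∑ v, if L v = i then x v else 0

/-- The sector `X i`. -/
def sector (K : Fam n) (L : Fin n → Fin 3) (i : Fin 3) : Set (Body K) :=
  {x | ∀ j, weight L x.1 j ≤ weight L x.1 i}

/-- The central surface. -/
def core (K : Fam n) (L : Fin n → Fin 3) : Set (Body K) :=
  {x | ∀ i j, weight L x.1 i = weight L x.1 j}

/-- The simplices of `K` whose set of labels is exactly `J`. -/
def cells (K : Fam n) (L : Fin n → Fin 3) (J : Finset (Fin 3)) : Fam n :=
  (faces K).filter fun s => s.image L = J

/-- Elementary collapse: the cell `t` is contained in exactly one other cell `insert v t`, and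
these two cells are removed. -/
def CollapseStep (S S' : Fam n) : Prop :=
  ∃ (t : Finset (Fin n)) (v : Fin n), v ∉ t ∧ t ∈ S ∧ insert v t ∈ S ∧
    (∀ r ∈ S, t ⊆ r → r = t ∨ r = insert v t) ∧ S' = (S.erase t).erase (insert v t)

/-- The family `S` consists of cells with `b` vertices (the nodes) and cells with `b + 1` vertices
(the edges) and is a connected graph with first Betti number `r`. -/
def IsGraph (b r : ℕ) (S : Fam n) : Prop :=
  (∀ s ∈ S, s.card = b ∨ s.card = b + 1) ∧ IsConn S ∧
    (S.filter fun s => s.card = b + 1).card + 1 = (S.filter fun s => s.card = b).card + r

/-- `S` collapses onto a connected graph with first Betti number `r`. -/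
def CollapsesToGraph (b r : ℕ) (S : Fam n) : Prop :=
  ∃ G : Fam n, Relation.ReflTransGen CollapseStep S G ∧ IsGraph b r G

/-- The labelling `L` defines a `(g;k,k,k)`-trisection of the closed PL `4`-manifold `Body K`. -/
def IsTrisection (K : Fam n) (L : Fin n → Fin 3) (g k : ℕ) : Prop :=
  (∀ i, CollapsesToGraph 1 k (cells K L {i})) ∧
  (∀ i j, i ≠ j → CollapsesToGraph 2 g (cells K L {i, j})) ∧
  IsConn (cells K L univ) ∧
  ∑ s ∈ cells K L univ, (-1 : ℤ) ^ (s.card - 3) = 2 - 2 * g

end Pool.Agent.TH640
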