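import Mathlib
import Pool.Agent.TH640.Defs

/-!
# Certificate checkers on bit masks

Helper file.  A set of vertices is represented by a natural number (bit `i` is set iff the vertex
`i` is in the set), a family of sets by a list of natural numbers.  The functions below are written
with recursors so that the kernel evaluates them quickly; each comes with a soundness theorem.
-/

open Finset

namespace Pool.Agent.TH640

/-! ### Booleans and lists -/

/-- conjunction -/
def andB (a b : Bool) : Bool := Bool.rec false b a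
/-- disjunction -/
def orB (a b : Bool) : Bool := Bool.rec b true a
/-- negation -/
def notB (a : Bool) : Bool := Bool.rec true false a

theorem andB_iff {a b : Bool} : andB a b = true ↔ a = true ∧ b = true := by
  cases a <;> simp [andB]

theorem orB_iff {a b : Bool} : orB a b = true ↔ a = true ∨ b = true := by
  cases a <;> simp [orB]

theorem notB_iff {a : Bool} : notB a = true ↔ ¬ a = true := by
  cases a <;> simp [notB]

/-- all elements satisfy `p` -/
def allL {α : Type} (p : α → Bool) (l : List α) : Bool :=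
  List.rec true (fun y _ ih => Bool.rec false ih (p y)) l
/-- some element satisfies `p` -/
def anyL {α : Type} (p : α → Bool) (l : List α) : Bool :=
  List.rec false (fun y _ ih => Bool.rec ih true (p y)) l
/-- the elements satisfying `p` -/
def filL {α : Type} (p : α → Bool) (l : List α) : List α :=
  List.rec [] (fun y _ ih => Bool.rec ih (y :: ih) (p y)) l
/-- image of a list -/
def mapL {α β : Type} (f : α → β) (l : List α) : List β :=
  List.rec [] (fun y _ ih => f y :: ih) l
/-- length -/
def lenL {α : Type} (l : List α) : ℕ := List.rec 0 (fun _ _ ih => Nat.succ ih) l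

theorem allL_iff {α : Type} {p : α → Bool} {l : List α} :
    allL p l = true ↔ ∀ x ∈ l, p x = true := by
  induction l with
  | nil => simp [allL]
  | cons y l ih =>
    have h : allL p (y :: l) = Bool.rec false (allL p l) (p y) := rfl
    rw [h]
    cases hp : p y with
    | false => simp [hp]
    | true => simp [hp, ih]

theorem anyL_iff {α : Type} {p : α → Bool} {l : List α} :
    anyL p l = true ↔ ∃ x ∈ l, p x = true := by
  induction l with
  | nil => simp [anyL]
  | cons y l ih =>
    have h : anyL p (y :: l) = Bool.rec (anyL p l) true (p y) := rfl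
    rw [h]
    cases hp : p y with
    | false => simp [hp, ih]
    | true => simp [hp]

theorem mem_filL {α : Type} {p : α → Bool} {l : List α} {x : α} :
    x ∈ filL p l ↔ x ∈ l ∧ p x = true := by
  induction l with
  | nil => simp [filL]
  | cons y l ih =>
    have h : filL p (y :: l) = Bool.rec (filL p l) (y :: filL p l) (p y) := rfl
    rw [h]
    cases hp : p y with
    | false =>
      simp only [ih, List.mem_cons]
      constructor
      · rintro ⟨h1, h2⟩; exact ⟨Or.inr h1, h2⟩
      · rintro ⟨h1 | h1, h2⟩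
        · rw [h1, hp] at h2; simp at h2
        · exact ⟨h1, h2⟩
    | true =>
      simp only [ih, List.mem_cons]
      constructor
      · rintro (h1 | ⟨h1, h2⟩)
        · rw [h1]; exact ⟨Or.inl rfl, hp⟩
        · exact ⟨Or.inr h1, h2⟩
      · rintro ⟨h1 | h1, h2⟩
        · exact Or.inl h1
        · exact Or.inr ⟨h1, h2⟩

theorem filL_eq {α : Type} (p : α → Bool) (l : List α) : filL p l = l.filter p := by
  induction l with
  | nil => rfl
  | cons y l ih =>
    have h : filL p (y :: l) = Bool.rec (filL p l) (y :: filL p l) (p y) := rfl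
    rw [h]
    cases hp : p y with
    | false => simp [hp, ih]
    | true => simp [hp, ih]

theorem mapL_eq {α β : Type} (f : α → β) (l : List α) : mapL f l = l.map f := by
  induction l with
  | nil => rfl
  | cons y l ih =>
    have h : mapL f (y :: l) = f y :: mapL f l := rfl
    rw [h, ih]; rfl

theorem lenL_eq {α : Type} (l : List α) : lenL l = l.length := by
  induction l with
  | nil => rfl
  | cons y l ih =>
    have h : lenL (y :: l) = Nat.succ (lenL l) := rfl
    rw [h, ih]; rfl

/-! ### Bits -/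

/-- bit `k` of `m` -/
def tb (m k : ℕ) : Bool := notB (Nat.beq (Nat.land m (Nat.pow 2 k)) 0)

theorem nbeq_iff {a b : ℕ} : Nat.beq a b = true ↔ a = b := by
  rw [Nat.beq_eq]

theorem nblt_iff {a b : ℕ} : Nat.blt a b = true ↔ a < b := by
  rw [Nat.blt_eq]

theorem tb_eq (m k : ℕ) : tb m k = m.testBit k := by
  have h1 : tb m k = true ↔ m.testBit k = true := by
    unfold tb
    rw [notB_iff, nbeq_iff]
    change ¬ (m &&& 2 ^ k = 0) ↔ _
    constructor
    · intro h
      by_contra hc
      apply h
      apply Nat.eq_of_testBit_eq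
      intro i
      rw [Nat.testBit_and, Nat.testBit_two_pow, Nat.zero_testBit]
      by_cases hi : k = i
      · subst hi
        simp only [Bool.not_eq_true] at hc
        simp [hc]
      · simp [hi]
    · intro h hz
      have h2 : (m &&& 2 ^ k).testBit k = false := by rw [hz]; exact Nat.zero_testBit k
      rw [Nat.testBit_and, Nat.testBit_two_pow, h] at h2
      simp at h2
  cases h2 : tb m k with
  | true => exact (h1.1 h2).symm
  | false =>
    cases h3 : m.testBit k with
    | false => rfl
    | true => rw [h1.2 h3] at h2; exact absurd h2 (by simp)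

/-- number of bits of `m` below `n` -/
def pc (n m : ℕ) : ℕ := Nat.rec 0 (fun k ih => Bool.rec ih (Nat.succ ih) (tb m k)) n

theorem pc_succ (n m : ℕ) : pc (n + 1) m = pc n m + if m.testBit n then 1 else 0 := by
  have h : pc (n + 1) m = Bool.rec (pc n m) (Nat.succ (pc n m)) (tb m n) := rfl
  rw [h, tb_eq]
  cases m.testBit n <;> simp

/-- `b ⊆ m` -/
def subB (b m : ℕ) : Bool := Nat.beq (Nat.land b m) b

theorem subB_iff {b m : ℕ} : subB b m = true ↔ ∀ i, b.testBit i = true → m.testBit i = true := by
  unfold subB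
  rw [nbeq_iff]
  change b &&& m = b ↔ _
  constructor
  · intro h i hi
    rw [← h, Nat.testBit_and] at hi
    simp only [Bool.and_eq_true] at hi
    exact hi.2
  · intro h
    apply Nat.eq_of_testBit_eq
    intro i
    rw [Nat.testBit_and]
    cases hb : b.testBit i with
    | false => simp
    | true => simp [h i hb]

/-- mask of a list of vertices -/
def msk (l : List ℕ) : ℕ := List.rec 0 (fun v _ ih => Nat.lor (Nat.pow 2 v) ih) l

theorem testBit_msk (l : List ℕ) (i : ℕ) : (msk l).testBit i = true ↔ i ∈ l := by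
  induction l with
  | nil => simp [msk]
  | cons v l ih =>
    have h : msk (v :: l) = 2 ^ v ||| msk l := rfl
    rw [h, Nat.testBit_or, Nat.testBit_two_pow]
    simp only [Bool.or_eq_true, decide_eq_true_eq, List.mem_cons, ih]
    constructor
    · rintro (h | h)
      · exact Or.inl h.symm
      · exact Or.inr h
    · rintro (h | h)
      · exact Or.inl h.symm
      · exact Or.inr h

variable {n : ℕ}

/-- the set with mask `m` -/
def fs (m : ℕ) : Finset (Fin n) := univ.filter fun i => m.testBit i = true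

theorem mem_fs {m : ℕ} {i : Fin n} : i ∈ (fs m : Finset (Fin n)) ↔ m.testBit i = true := by
  simp [fs]

theorem card_fs (m : ℕ) : (fs m : Finset (Fin n)).card = pc n m := by
  unfold fs
  rw [Finset.card_filter]
  rw [← Finset.sum_range (fun i => if m.testBit i = true then 1 else 0)]
  induction n with
  | zero => simp [pc]
  | succ k ih => rw [Finset.sum_range_succ, ih, pc_succ]

theorem card_fs_lt (m : ℕ) (v : Fin n) :
    ((fs m : Finset (Fin n)).filter fun u => u < v).card = pc v m := by
  have h1 : ((fs m : Finset (Fin n)).filter fun u => u < v) =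
      univ.filter fun u : Fin n => (u : ℕ) < v ∧ m.testBit u = true := by
    ext u
    simp only [Finset.mem_filter, mem_fs, Finset.mem_univ, true_and, Fin.lt_def]
    exact and_comm
  rw [h1, Finset.card_filter,
    ← Finset.sum_range (fun i => if i < (v : ℕ) ∧ m.testBit i = true then 1 else 0)]
  have hv := v.2
  have h2 : ∀ k, ∑ i ∈ range k, (if i < (v : ℕ) ∧ m.testBit i = true then 1 else 0) =
      pc (min k v) m := by
    intro k
    induction k with
    | zero => simp [pc]
    | succ k ih =>
      rw [Finset.sum_range_succ, ih]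
      by_cases hk : k < v
      · rw [min_eq_left hk.le, min_eq_left (Nat.succ_le_of_lt hk), pc_succ]
        simp [hk]
      · rw [min_eq_right (by omega : (v : ℕ) ≤ k), min_eq_right (by omega : (v : ℕ) ≤ k + 1)]
        simp [hk]
  rw [h2, min_eq_right hv.le]

theorem fs_inj {m m' : ℕ} (h : m < 2 ^ n) (h' : m' < 2 ^ n)
    (he : (fs m : Finset (Fin n)) = fs m') : m = m' := by
  apply Nat.eq_of_testBit_eq
  intro i
  by_cases hi : i < n
  · have h1 : (⟨i, hi⟩ : Fin n) ∈ (fs m : Finset (Fin n)) ↔ (⟨i, hi⟩ : Fin n) ∈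
      (fs m' : Finset (Fin n)) := by rw [he]
    rw [mem_fs, mem_fs] at h1
    cases h2 : m.testBit i <;> cases h3 : m'.testBit i <;> simp_all
  · have hle : 2 ^ n ≤ 2 ^ i := Nat.pow_le_pow_right (by norm_num) (not_lt.1 hi)
    rw [Nat.testBit_lt_two_pow (lt_of_lt_of_le h hle),
      Nat.testBit_lt_two_pow (lt_of_lt_of_le h' hle)]

theorem lt_of_bits {m : ℕ} (h : ∀ i, m.testBit i = true → i < n) : m < 2 ^ n := by
  apply Nat.lt_pow_two_of_testBit
  intro i hi
  by_contra hc
  simp only [Bool.not_eq_false] at hc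
  exact absurd (h i hc) (not_lt.2 hi)

theorem exists_fs (s : Finset (Fin n)) : ∃ m, m < 2 ^ n ∧ (fs m : Finset (Fin n)) = s := by
  refine ⟨msk (s.toList.map Fin.val), ?_, ?_⟩
  · apply lt_of_bits
    intro i hi
    rw [testBit_msk] at hi
    obtain ⟨j, _, rfl⟩ := List.mem_map.1 hi
    exact j.2
  · ext i
    rw [mem_fs, testBit_msk, List.mem_map]
    constructor
    · rintro ⟨j, hj, hji⟩
      have : j = i := Fin.ext hji
      rw [← this]; simpa using hj
    · intro hi
      exact ⟨i, by simpa using hi, rfl⟩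

theorem fs_subset {b m : ℕ} (hb : b < 2 ^ n) :
    (fs b : Finset (Fin n)) ⊆ fs m ↔ subB b m = true := by
  rw [subB_iff]
  constructor
  · intro h i hi
    have hin : i < n := by
      by_contra hc
      have hle : 2 ^ n ≤ 2 ^ i := Nat.pow_le_pow_right (by norm_num) (not_lt.1 hc)
      rw [Nat.testBit_lt_two_pow (lt_of_lt_of_le hb hle)] at hi
      simp at hi
    exact mem_fs.1 (h (mem_fs.2 (show b.testBit (⟨i, hin⟩ : Fin n) = true from hi)))
  · intro h i hi
    rw [mem_fs] at hi ⊢
    exact h _ hi

theorem fs_or (a b : ℕ) : (fs (Nat.lor a b) : Finset (Fin n)) = fs a ∪ fs b := by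
  ext i
  rw [Finset.mem_union, mem_fs, mem_fs, mem_fs]
  change (a ||| b).testBit i = true ↔ _
  rw [Nat.testBit_or]
  simp

theorem fs_xor_erase {m : ℕ} {v : Fin n} (hv : m.testBit v = true) :
    (fs (Nat.xor m (Nat.pow 2 v)) : Finset (Fin n)) = (fs m).erase v := by
  ext i
  rw [Finset.mem_erase, mem_fs, mem_fs]
  change (m ^^^ 2 ^ (v : ℕ)).testBit i = true ↔ _
  rw [Nat.testBit_xor, Nat.testBit_two_pow]
  by_cases h : v = i
  · subst h; simp [hv]
  · have h1 : ¬ (v : ℕ) = i := fun h2 => h (Fin.ext h2)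
    simp [h1, Ne.symm h]

theorem fs_or_insert {m : ℕ} {v : Fin n} :
    (fs (Nat.lor m (Nat.pow 2 v)) : Finset (Fin n)) = insert v (fs m) := by
  ext i
  rw [Finset.mem_insert, mem_fs, mem_fs]
  change (m ||| 2 ^ (v : ℕ)).testBit i = true ↔ _
  rw [Nat.testBit_or, Nat.testBit_two_pow]
  by_cases h : v = i
  · subst h; simp
  · have h1 : ¬ (v : ℕ) = i := fun h2 => h (Fin.ext h2)
    simp [h1, Ne.symm h]

theorem lor_lt {m v : ℕ} (hm : m < 2 ^ n) (hv : v < n) : Nat.lor m (Nat.pow 2 v) < 2 ^ n := by
  apply lt_of_bits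
  intro i hi
  change (m ||| 2 ^ v).testBit i = true at hi
  rw [Nat.testBit_or, Nat.testBit_two_pow] at hi
  simp only [Bool.or_eq_true, decide_eq_true_eq] at hi
  rcases hi with h | h
  · by_contra hc
    have hle : 2 ^ n ≤ 2 ^ i := Nat.pow_le_pow_right (by norm_num) (not_lt.1 hc)
    rw [Nat.testBit_lt_two_pow (lt_of_lt_of_le hm hle)] at h
    simp at h
  · omega

theorem xor_lt {m v : ℕ} (hm : m < 2 ^ n) (hv : v < n) : Nat.xor m (Nat.pow 2 v) < 2 ^ n :=
  Nat.xor_lt_two_pow hm (Nat.pow_lt_pow_right (by norm_num) hv)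

/-- the family with list of masks `l` -/
def toFam (l : List ℕ) : Fam n := (l.map fs).toFinset

theorem mem_toFam {l : List ℕ} {s : Finset (Fin n)} :
    s ∈ (toFam l : Fam n) ↔ ∃ m ∈ l, fs m = s := by
  simp [toFam]

/-! ### Bistellar moves -/

/-- validity of the bistellar move given by the vertex lists `A`, `B` on the list `l` -/
def stepOK (n : ℕ) (A B : List ℕ) (l : List ℕ) : Bool :=
  andB (allL (fun v => Nat.blt v n) A) <|
  andB (allL (fun v => Nat.blt v n) B) <|
  andB (notB (Nat.beq (msk A) 0)) <|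
  andB (notB (Nat.beq (msk B) 0)) <|
  andB (Nat.beq (Nat.land (msk A) (msk B)) 0) <|
  andB (allL (fun m => anyL (fun v =>
    Nat.beq m (Nat.xor (Nat.lor (msk A) (msk B)) (Nat.pow 2 v))) A) (filL (subB (msk B)) l)) <|
  andB (allL (fun v => anyL (fun m =>
    Nat.beq m (Nat.xor (Nat.lor (msk A) (msk B)) (Nat.pow 2 v))) (filL (subB (msk B)) l)) A) <|
  allL (fun m => notB (subB (msk A) m)) (filL (fun m => notB (subB (msk B) m)) l)

/-- result of the bistellar move -/
def stepNext (A B : List ℕ) (l : List ℕ) : List ℕ :=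
  List.rec (filL (fun m => notB (subB (msk B) m)) l)
    (fun v _ ih => Nat.xor (Nat.lor (msk A) (msk B)) (Nat.pow 2 v) :: ih) B

theorem mem_stepNext {A B l : List ℕ} {m : ℕ} : m ∈ stepNext A B l ↔
    (∃ v ∈ B, m = Nat.xor (Nat.lor (msk A) (msk B)) (Nat.pow 2 v)) ∨
      m ∈ filL (fun m => notB (subB (msk B) m)) l := by
  have key : ∀ (D : ℕ) (r : List ℕ) (B : List ℕ),
      m ∈ (List.rec r (fun v _ ih => Nat.xor D (Nat.pow 2 v) :: ih) B : List ℕ) ↔
      (∃ v ∈ B, m = Nat.xor D (Nat.pow 2 v)) ∨ m ∈ r := by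
    intro D r B
    induction B with
    | nil => simp
    | cons v B ih =>
      change m ∈ Nat.xor D (Nat.pow 2 v) ::
        (List.rec r (fun v _ ih => Nat.xor D (Nat.pow 2 v) :: ih) B : List ℕ) ↔ _
      rw [List.mem_cons, ih]
      constructor
      · rintro (h | ⟨w, hw, h⟩ | h)
        · exact Or.inl ⟨v, by simp, h⟩
        · exact Or.inl ⟨w, by simp [hw], h⟩
        · exact Or.inr h
      · rintro (⟨w, hw, h⟩ | h)
        · rcases List.mem_cons.1 hw with h1 | h1
          · rw [h1] at h; exact Or.inl h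
          · exact Or.inr (Or.inl ⟨w, h1, h⟩)
        · exact Or.inr (Or.inr h)
  exact key _ _ B

theorem flip_sound {A B l : List ℕ} (h : stepOK n A B l = true) :
    Flip (toFam l : Fam n) (toFam (stepNext A B l)) := by
  unfold stepOK at h
  simp only [andB_iff, allL_iff, anyL_iff, notB_iff, nbeq_iff, mem_filL] at h
  obtain ⟨hA, hB, hA0, hB0, hdis, h1, h2, h3⟩ := h
  have hA' : ∀ v ∈ A, v < n := fun v hv => nblt_iff.1 (hA v hv)
  have hB' : ∀ v ∈ B, v < n := fun v hv => nblt_iff.1 (hB v hv)
  have ha : msk A < 2 ^ n := lt_of_bits fun i hi => hA' i ((testBit_msk A i).1 hi)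
  have hb : msk B < 2 ^ n := lt_of_bits fun i hi => hB' i ((testBit_msk B i).1 hi)
  have hmA : ∀ v : Fin n, v ∈ (fs (msk A) : Finset (Fin n)) ↔ (v : ℕ) ∈ A := fun v => by
    rw [mem_fs, testBit_msk]
  have hmB : ∀ v : Fin n, v ∈ (fs (msk B) : Finset (Fin n)) ↔ (v : ℕ) ∈ B := fun v => by
    rw [mem_fs, testBit_msk]
  have hdisj : Disjoint (fs (msk A) : Finset (Fin n)) (fs (msk B)) := by
    rw [Finset.disjoint_left]
    intro v hv hv'
    rw [mem_fs] at hv hv'
    have : (Nat.land (msk A) (msk B)).testBit v = true := by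
      change ((msk A) &&& (msk B)).testBit v = true
      rw [Nat.testBit_and, hv, hv']; rfl
    rw [hdis] at this
    simp at this
  have hne : ∀ m : ℕ, m ≠ 0 → m < 2 ^ n → (fs m : Finset (Fin n)).Nonempty := by
    intro m hm hlt
    by_contra hc
    rw [Finset.not_nonempty_iff_eq_empty] at hc
    apply hm
    apply fs_inj hlt (by positivity)
    rw [hc]
    ext i
    simp [mem_fs]
  have hDA : ∀ v ∈ A, ∀ hv : v < n,
      (fs (Nat.xor (Nat.lor (msk A) (msk B)) (Nat.pow 2 v)) : Finset (Fin n)) =
        ((fs (msk A)) ∪ (fs (msk B))).erase ⟨v, hv⟩ := by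
    intro v hvA hv
    have h0 := fs_xor_erase (n := n) (m := Nat.lor (msk A) (msk B)) (v := ⟨v, hv⟩) (by
      change ((msk A) ||| (msk B)).testBit v = true
      rw [Nat.testBit_or, (testBit_msk A v).2 hvA]; rfl)
    rw [← fs_or]
    exact h0
  have hDB : ∀ v ∈ B, ∀ hv : v < n,
      (fs (Nat.xor (Nat.lor (msk A) (msk B)) (Nat.pow 2 v)) : Finset (Fin n)) =
        ((fs (msk A)) ∪ (fs (msk B))).erase ⟨v, hv⟩ := by
    intro v hvB hv
    have h0 := fs_xor_erase (n := n) (m := Nat.lor (msk A) (msk B)) (v := ⟨v, hv⟩) (by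
      change ((msk A) ||| (msk B)).testBit v = true
      rw [Nat.testBit_or, (testBit_msk B v).2 hvB]; simp)
    rw [← fs_or]
    exact h0
  refine ⟨fs (msk A), fs (msk B), hne _ hA0 ha, hne _ hB0 hb, hdisj, ?_, ?_, ?_⟩
  · ext F
    rw [Finset.mem_filter, mem_toFam, Finset.mem_image]
    constructor
    · rintro ⟨⟨m, hm, rfl⟩, hsub⟩
      rw [fs_subset hb] at hsub
      obtain ⟨v, hv, hmv⟩ := h1 m ⟨hm, hsub⟩
      refine ⟨⟨v, hA' v hv⟩, (hmA _).2 hv, ?_⟩
      rw [hmv, hDA v hv (hA' v hv)]
    · rintro ⟨v, hv, rfl⟩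
      rw [hmA] at hv
      obtain ⟨m, ⟨hm, hsub⟩, hmv⟩ := h2 v hv
      have h4 := hDA v hv v.2
      rw [← hmv] at h4
      refine ⟨⟨m, hm, h4⟩, ?_⟩
      intro u hu
      rw [Finset.mem_erase, Finset.mem_union]
      refine ⟨?_, Or.inr hu⟩
      rintro rfl
      exact Finset.disjoint_left.1 hdisj ((hmA _).2 hv) hu
  · ext F
    rw [Finset.mem_filter, mem_toFam, Finset.mem_image]
    constructor
    · rintro ⟨⟨m, hm, rfl⟩, hsub⟩
      rw [fs_subset ha] at hsub
      rcases mem_stepNext.1 hm with ⟨v, hv, rfl⟩ | hr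
      · refine ⟨⟨v, hB' v hv⟩, (hmB _).2 hv, ?_⟩
        rw [hDB v hv (hB' v hv)]
      · exfalso
        rw [mem_filL, notB_iff] at hr
        exact h3 m hr hsub
    · rintro ⟨v, hv, rfl⟩
      rw [hmB] at hv
      refine ⟨⟨_, mem_stepNext.2 (Or.inl ⟨v, hv, rfl⟩), hDB v hv v.2⟩, ?_⟩
      intro u hu
      rw [Finset.mem_erase, Finset.mem_union]
      refine ⟨?_, Or.inl hu⟩
      rintro rfl
      exact Finset.disjoint_left.1 hdisj hu ((hmB _).2 hv)
  · ext F
    rw [Finset.mem_filter, mem_toFam, Finset.mem_filter, mem_toFam]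
    constructor
    · rintro ⟨⟨m, hm, rfl⟩, hsub⟩
      rw [fs_subset hb] at hsub
      have hr : m ∈ filL (fun m => notB (subB (msk B) m)) l := by
        rw [mem_filL, notB_iff]; exact ⟨hm, hsub⟩
      refine ⟨⟨m, mem_stepNext.2 (Or.inr hr), rfl⟩, ?_⟩
      rw [fs_subset ha]
      exact h3 m ⟨hm, hsub⟩
    · rintro ⟨⟨m, hm, rfl⟩, hsub⟩
      rcases mem_stepNext.1 hm with ⟨v, hv, rfl⟩ | hr
      · exfalso
        apply hsub
        rw [hDB v hv (hB' v hv)]
        intro u hu
        rw [Finset.mem_erase, Finset.mem_union]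
        refine ⟨?_, Or.inl hu⟩
        rintro rfl
        exact Finset.disjoint_left.1 hdisj hu ((hmB _).2 hv)
      · rw [mem_filL, notB_iff] at hr
        refine ⟨⟨m, hr.1, rfl⟩, ?_⟩
        rw [fs_subset hb]
        exact hr.2

/-- the list `l` is the boundary of the simplex with vertex list `D` of `c` vertices -/
def finOK (n c : ℕ) (D : List ℕ) (l : List ℕ) : Bool :=
  andB (allL (fun v => Nat.blt v n) D) <|
  andB (Nat.beq (pc n (msk D)) c) <|
  andB (allL (fun m => anyL (fun v => Nat.beq m (Nat.xor (msk D) (Nat.pow 2 v))) D) l) <|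
  allL (fun v => anyL (fun m => Nat.beq m (Nat.xor (msk D) (Nat.pow 2 v))) l) D

/-- a sequence of bistellar moves to the boundary of a simplex -/
def runFlips (n c : ℕ) (D : List ℕ) (mv : List (List ℕ × List ℕ)) : List ℕ → Bool :=
  List.rec (finOK n c D)
    (fun m _ ih l => Bool.rec false (ih (stepNext m.1 m.2 l)) (stepOK n m.1 m.2 l)) mv

theorem finOK_sound {c : ℕ} {D l : List ℕ} (h : finOK n c D l = true) :
    (fs (msk D) : Finset (Fin n)).card = c ∧ (toFam l : Fam n) = bdry (fs (msk D)) := by
  unfold finOK at h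
  simp only [andB_iff, allL_iff, anyL_iff, nbeq_iff] at h
  obtain ⟨hD, hc, h1, h2⟩ := h
  have hD' : ∀ v ∈ D, v < n := fun v hv => nblt_iff.1 (hD v hv)
  refine ⟨by rw [card_fs, hc], ?_⟩
  have hE : ∀ v ∈ D, ∀ hv : v < n,
      (fs (Nat.xor (msk D) (Nat.pow 2 v)) : Finset (Fin n)) = (fs (msk D)).erase ⟨v, hv⟩ := by
    intro v hvD hv
    exact fs_xor_erase (n := n) (m := msk D) (v := ⟨v, hv⟩) ((testBit_msk D v).2 hvD)
  ext F
  rw [mem_toFam, bdry, Finset.mem_image]
  constructor
  · rintro ⟨m, hm, rfl⟩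
    obtain ⟨v, hv, rfl⟩ := h1 m hm
    exact ⟨⟨v, hD' v hv⟩, mem_fs.2 ((testBit_msk D v).2 hv), (hE v hv (hD' v hv)).symm⟩
  · rintro ⟨v, hv, rfl⟩
    rw [mem_fs, testBit_msk] at hv
    obtain ⟨m, hm, rfl⟩ := h2 v hv
    exact ⟨_, hm, hE v hv v.2⟩

theorem runFlips_sound {d : ℕ} {D : List ℕ} {mv : List (List ℕ × List ℕ)} {l : List ℕ}
    (h : runFlips n (d + 2) D mv l = true) : IsPLSphere d (toFam l : Fam n) := by
  induction mv generalizing l with
  | nil =>
    obtain ⟨h1, h2⟩ := finOK_sound (n := n) (c := d + 2) (D := D) (l := l) h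
    exact ⟨fs (msk D), h1, by rw [h2]⟩
  | cons m mv ih =>
    have he : runFlips n (d + 2) D (m :: mv) l =
      Bool.rec false (runFlips n (d + 2) D mv (stepNext m.1 m.2 l)) (stepOK n m.1 m.2 l) := rfl
    rw [he] at h
    cases hs : stepOK n m.1 m.2 l with
    | false => rw [hs] at h; simp at h
    | true =>
      rw [hs] at h
      obtain ⟨D', hD', hr⟩ := ih h
      exact ⟨D', hD', Relation.ReflTransGen.head (flip_sound hs) hr⟩

/-! ### Search trees -/

/-- search trees with keys in `ℕ` -/
inductive BT (α : Type) : Type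
  | lf : BT α
  | nd : BT α → ℕ → α → BT α → BT α

/-- value attached to the key `x`, default `d` -/
noncomputable def btGet {α β : Type} (d : β) (f : α → β) (x : ℕ) (t : BT α) : β :=
  BT.rec d (fun _ k w _ ihl ihr =>
    Bool.rec (Bool.rec ihr ihl (Nat.blt x k)) (f w) (Nat.beq x k)) t

/-- is the key `x` present? -/
noncomputable def btMem {α : Type} (x : ℕ) (t : BT α) : Bool := btGet false (fun _ => true) x t

/-- all entries satisfy `p` -/
noncomputable def btAll {α : Type} (p : ℕ → α → Bool) (t : BT α) : Bool :=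
  BT.rec true (fun _ k w _ ihl ihr => Bool.rec false (Bool.rec false ihr ihl) (p k w)) t

/-- the list of keys, with accumulator -/
noncomputable def btAcc {α : Type} (t : BT α) (acc : List ℕ) : List ℕ :=
  BT.rec (fun acc => acc) (fun _ k _ _ ihl ihr acc => ihl (k :: ihr acc)) t acc

/-- the list of keys -/
noncomputable def btKeys {α : Type} (t : BT α) : List ℕ := btAcc t []

theorem mem_btAcc {α : Type} (t : BT α) (acc : List ℕ) (x : ℕ) :
    x ∈ btAcc t acc ↔ x ∈ btKeys t ∨ x ∈ acc := by
  induction t generalizing acc with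
  | lf => simp [btAcc, btKeys]
  | nd l k w r ihl ihr =>
    have h : ∀ acc, btAcc (BT.nd l k w r) acc = btAcc l (k :: btAcc r acc) := fun _ => rfl
    have h' : btKeys (BT.nd l k w r) = btAcc l (k :: btAcc r []) := rfl
    rw [h, h', ihl, List.mem_cons, ihr, ihl (k :: btAcc r []), List.mem_cons, ihr []]
    simp only [List.not_mem_nil, or_false]
    tauto

theorem mem_btKeys_nd {α : Type} (l r : BT α) (k : ℕ) (w : α) (x : ℕ) :
    x ∈ btKeys (BT.nd l k w r) ↔ x ∈ btKeys l ∨ x = k ∨ x ∈ btKeys r := by
  have h' : btKeys (BT.nd l k w r) = btAcc l (k :: btAcc r []) := rfl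
  rw [h', mem_btAcc, List.mem_cons, mem_btAcc]
  simp only [List.not_mem_nil, or_false]

theorem btMem_sound {α : Type} {x : ℕ} {t : BT α} (h : btMem x t = true) : x ∈ btKeys t := by
  induction t with
  | lf => simp [btMem, btGet] at h
  | nd l k w r ihl ihr =>
    have he : btMem x (BT.nd l k w r) =
      Bool.rec (Bool.rec (btMem x r) (btMem x l) (Nat.blt x k)) true (Nat.beq x k) := rfl
    rw [he] at h
    rw [mem_btKeys_nd]
    cases h1 : Nat.beq x k with
    | true => right; left; exact nbeq_iff.1 h1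
    | false =>
      rw [h1] at h
      cases h2 : Nat.blt x k with
      | true => rw [h2] at h; left; exact ihl h
      | false => rw [h2] at h; right; right; exact ihr h

theorem btAll_sound {α : Type} {p : ℕ → α → Bool} {t : BT α} (h : btAll p t = true) :
    ∀ x ∈ btKeys t, ∃ w, p x w = true := by
  induction t with
  | lf => intro x hx; simp [btKeys, btAcc] at hx
  | nd l k w r ihl ihr =>
    have he : btAll p (BT.nd l k w r) =
      Bool.rec false (Bool.rec false (btAll p r) (btAll p l)) (p k w) := rfl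
    rw [he] at h
    intro x hx
    rw [mem_btKeys_nd] at hx
    cases h1 : p k w with
    | false => rw [h1] at h; simp at h
    | true =>
      rw [h1] at h
      cases h2 : btAll p l with
      | false => rw [h2] at h; simp at h
      | true =>
        rw [h2] at h
        rcases hx with hx | hx | hx
        · exact ihl h2 x hx
        · exact ⟨w, by rw [hx]; exact h1⟩
        · exact ihr h x hx

end Pool.Agent.TH640
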