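import Mathlib

/-!
# Holonomy of maps from the circle in a principal covering

Helper file.  `PCov p T` says that `p : E → X` is a covering map and that `T` is a free action of
the commutative group `G` on `E`, transitive on the fibres of `p`.  `HasHol p T f c` says that the
map `f` from the circle `ℝ/ℤ` to `X` has holonomy `c`.
-/

open Topology ContinuousMap unitInterval

namespace Pool.Agent.TH640

/-- a covering map with a free fibrewise transitive action of a commutative group -/
structure PCov {E X G : Type} [TopologicalSpace E] [TopologicalSpace X] [AddCommGroup G]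
    (p : E → X) (T : G → E → E) : Prop where
  cov : IsCoveringMap p
  surj : Function.Surjective p
  cont : ∀ g, Continuous (T g)
  map : ∀ g e, p (T g e) = p e
  free : ∀ g g' e, T g e = T g' e → g = g'
  trans : ∀ e e', p e = p e' → ∃ g, T g e = e'
  add : ∀ g g' e, T (g + g') e = T g (T g' e)

/-- `f : ℝ/ℤ → X` lifts to `F : ℝ → E` with `F (t+1) = T c (F t)`. -/
def HasHol {E X G : Type} [TopologicalSpace E] [TopologicalSpace X]
    (p : E → X) (T : G → E → E) (f : C(UnitAddCircle, X)) (c : G) : Prop :=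
  ∃ F : C(ℝ, E), (∀ t : ℝ, p (F t) = f (t : UnitAddCircle)) ∧ ∀ t, F (t + 1) = T c (F t)

theorem unit_coe_eq (x y : ℝ) : (x : UnitAddCircle) = y ↔ ∃ m : ℤ, y = x + m := by
  rw [← sub_eq_zero, ← AddCircle.coe_sub, AddCircle.coe_eq_zero_iff]
  constructor
  · rintro ⟨m, hm⟩
    refine ⟨-m, ?_⟩
    simp at hm
    push_cast
    linarith
  · rintro ⟨m, hm⟩
    refine ⟨-m, ?_⟩
    simp
    linarith

theorem unit_coe_add_one (t : ℝ) : ((t + 1 : ℝ) : UnitAddCircle) = (t : UnitAddCircle) := by
  rw [unit_coe_eq]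
  exact ⟨-1, by push_cast; ring⟩

section

variable {E X G : Type} [TopologicalSpace E] [TopologicalSpace X] [AddCommGroup G]
  {p : E → X} {T : G → E → E}

theorem PCov.zero (h : PCov p T) (e : E) : T 0 e = e := by
  obtain ⟨g, hg⟩ := h.trans e e rfl
  have h1 : T (0 + g) e = T 0 (T g e) := h.add 0 g e
  rw [zero_add, hg] at h1
  exact h1.symm

theorem PCov.shift_int (h : PCov p T) {F : ℝ → E} {c : G} (hF : ∀ t, F (t + 1) = T c (F t))
    (d : ℤ) (t : ℝ) : F (t + d) = T (d • c) (F t) := by
  induction d using Int.induction_on with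
  | zero => simp [h.zero]
  | succ i ih =>
    have h1 : t + ((i : ℤ) + 1 : ℤ) = (t + (i : ℤ)) + 1 := by push_cast; ring
    rw [h1, hF, ih, ← h.add]
    congr 1
    rw [add_smul, one_smul, add_comm]
  | pred i ih =>
    have h1 : t + (-(i : ℤ) : ℤ) = (t + (-(i : ℤ) - 1 : ℤ)) + 1 := by push_cast; ring
    rw [h1, hF] at ih
    have h2 : T (-c) (T c (F (t + (-(i : ℤ) - 1 : ℤ)))) = T (-c) (T ((-(i : ℤ)) • c) (F t)) := by
      rw [ih]
    rw [← h.add, ← h.add, neg_add_cancel, h.zero] at h2
    rw [h2]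
    congr 1
    rw [sub_smul, one_smul]
    abel

/-- two lifts of the same map from a connected space that agree at a point agree -/
theorem PCov.lift_unique (h : PCov p T) {A : Type} [TopologicalSpace A] [PreconnectedSpace A]
    {F F' : A → E} (hF : Continuous F) (hF' : Continuous F') (he : ∀ a, p (F a) = p (F' a))
    (a : A) (ha : F a = F' a) : F = F' :=
  h.cov.eq_of_comp_eq hF hF' (funext he) a ha

theorem PCov.exists_hol (h : PCov p T) (f : C(UnitAddCircle, X)) : ∃ c, HasHol p T f c := by
  obtain ⟨e0, he0⟩ := h.surj (f ((0 : ℝ) : UnitAddCircle))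
  have hc : Continuous fun t : ℝ => f (t : UnitAddCircle) :=
    f.continuous.comp (AddCircle.continuous_mk' 1)
  obtain ⟨F, ⟨hF0, hF⟩, -⟩ := h.cov.existsUnique_continuousMap_lifts
    (⟨fun t : ℝ => f (t : UnitAddCircle), hc⟩ : C(ℝ, X)) 0 e0 he0
  have hF' : ∀ t : ℝ, p (F t) = f (t : UnitAddCircle) := fun t => congrFun hF t
  obtain ⟨c, hcc⟩ := h.trans (F 0) (F (0 + 1)) (by rw [hF', hF', unit_coe_add_one])
  refine ⟨c, F, hF', ?_⟩
  have := h.lift_unique (F := fun t => F (t + 1)) (F' := fun t => T c (F t))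
    (by fun_prop) ((h.cont c).comp F.continuous)
    (fun a => by rw [h.map, hF', hF', unit_coe_add_one]) 0 hcc.symm
  exact fun t => congrFun this t

theorem PCov.hol_unique (h : PCov p T) {f : C(UnitAddCircle, X)} {c c' : G}
    (h1 : HasHol p T f c) (h2 : HasHol p T f c') : c = c' := by
  obtain ⟨F, hF, hFc⟩ := h1
  obtain ⟨F', hF', hFc'⟩ := h2
  obtain ⟨g, hg⟩ := h.trans (F 0) (F' 0) (by rw [hF, hF'])
  have key := h.lift_unique (F := fun t => T g (F t)) (F' := F')
    ((h.cont g).comp F.continuous) F'.continuous (fun a => by rw [h.map, hF, hF']) 0 hg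
  have k1 : F' (0 + 1) = T g (F (0 + 1)) := (congrFun key (0 + 1)).symm
  rw [hFc, hFc', ← hg, ← h.add, ← h.add] at k1
  have := h.free _ _ _ k1
  rw [add_comm g c] at this
  exact (add_right_cancel this).symm

theorem PCov.hol_homotopic (h : PCov p T) {f g : C(UnitAddCircle, X)} {c : G}
    (hfg : f.Homotopic g) (hf : HasHol p T f c) : HasHol p T g c := by
  obtain ⟨F, hF, hFc⟩ := hf
  obtain ⟨H⟩ := hfg
  let H' : C(I × ℝ, X) := ⟨fun q => H (q.1, (q.2 : UnitAddCircle)), by
    refine H.continuous.comp (continuous_fst.prodMk ?_)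
    exact (AddCircle.continuous_mk' 1).comp continuous_snd⟩
  have H0 : ∀ a : ℝ, H' (0, a) = p (F a) := fun a => by
    change H (0, _) = _
    rw [H.apply_zero, hF]
  let W := h.cov.liftHomotopy H' F H0
  have W1 : ∀ q, p (W q) = H' q := fun q => congrFun (h.cov.liftHomotopy_lifts H' F H0) q
  have W0 : ∀ a, W (0, a) = F a := fun a => h.cov.liftHomotopy_zero H' F H0 a
  refine ⟨⟨fun t => W (1, t), by fun_prop⟩, fun t => ?_, fun t => ?_⟩
  · change p (W (1, t)) = _
    rw [W1]
    change H (1, _) = _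
    rw [H.apply_one]
  · have key := h.lift_unique (F := fun s : I => W (s, t + 1)) (F' := fun s => T c (W (s, t)))
      (by fun_prop) ((h.cont c).comp (by fun_prop))
      (fun s => by
        rw [h.map, W1, W1]
        change H (s, _) = H (s, _)
        rw [unit_coe_add_one]) 0 (by rw [W0, W0, hFc])
    exact congrFun key 1

end

/-- the covering `ℝ → ℝ/ℤ` -/
theorem pcov_circle : PCov (fun t : ℝ => (t : UnitAddCircle)) (fun (d : ℤ) (t : ℝ) => t + d) where
  cov := AddCircle.isCoveringMap_coe 1
  surj := QuotientAddGroup.mk_surjective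
  cont := fun g => by fun_prop
  map := fun g e => by
    symm
    rw [unit_coe_eq]
    exact ⟨g, rfl⟩
  free := fun g g' e h => by
    have := add_left_cancel h
    exact_mod_cast this
  trans := fun e e' h => by
    obtain ⟨m, hm⟩ := (unit_coe_eq e e').1 h
    exact ⟨m, hm.symm⟩
  add := fun g g' e => by push_cast; ring

/-- `u : ℝ/ℤ → ℝ/ℤ` has degree `d` -/
def HasDeg (u : C(UnitAddCircle, UnitAddCircle)) (d : ℤ) : Prop :=
  HasHol (fun t : ℝ => (t : UnitAddCircle)) (fun (d : ℤ) (t : ℝ) => t + d) u d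

theorem PCov.hol_comp {E X G : Type} [TopologicalSpace E] [TopologicalSpace X] [AddCommGroup G]
    {p : E → X} {T : G → E → E} (h : PCov p T) {f : C(UnitAddCircle, X)} {c : G}
    {u : C(UnitAddCircle, UnitAddCircle)} {d : ℤ}
    (hf : HasHol p T f c) (hu : HasDeg u d) : HasHol p T (f.comp u) (d • c) := by
  obtain ⟨F, hF, hFc⟩ := hf
  obtain ⟨U, hU, hUd⟩ := hu
  refine ⟨F.comp U, fun t => ?_, fun t => ?_⟩
  · simp only [ContinuousMap.comp_apply]
    rw [hF]
    exact congrArg f (hU t)
  · simp only [ContinuousMap.comp_apply]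
    rw [hUd]
    exact h.shift_int hFc d (U t)

theorem deg_id : HasDeg (ContinuousMap.id _) 1 :=
  ⟨ContinuousMap.id _, fun t => rfl, fun t => by simp⟩

/-- A homotopy self-equivalence of the circle has degree `±1`. -/
theorem deg_unit {u u' : C(UnitAddCircle, UnitAddCircle)}
    (h : (u'.comp u).Homotopic (ContinuousMap.id _)) : HasDeg u 1 ∨ HasDeg u (-1) := by
  obtain ⟨d, hd⟩ := pcov_circle.exists_hol u
  obtain ⟨d', hd'⟩ := pcov_circle.exists_hol u'
  have h1 : HasDeg (u'.comp u) (d • d') := pcov_circle.hol_comp hd' hd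
  have h2 : HasDeg (ContinuousMap.id _) (d • d') := pcov_circle.hol_homotopic h h1
  have h3 : d • d' = 1 := pcov_circle.hol_unique h2 deg_id
  have h4 : IsUnit d := IsUnit.of_mul_eq_one d' (by simpa using h3)
  rcases Int.isUnit_iff.1 h4 with h5 | h5
  · left; rw [← h5]; exact hd
  · right; rw [← h5]; exact hd

/-- `j : A → X` looks like a circle of holonomy `a`. -/
def CircLike {E X G : Type} [TopologicalSpace E] [TopologicalSpace X]
    (p : E → X) (T : G → E → E) (A : Set X) (a : G) : Prop :=
  ∃ (f : C(UnitAddCircle, A)) (r : C(A, UnitAddCircle)),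
    (r.comp f).Homotopic (ContinuousMap.id _) ∧ (f.comp r).Homotopic (ContinuousMap.id _) ∧
    HasHol p T ((⟨Subtype.val, continuous_subtype_val⟩ : C(A, X)).comp f) a

/-- Homeomorphisms homotopic to the identity preserve the holonomy up to sign. -/
theorem circLike_homeo {E X G : Type} [TopologicalSpace E] [TopologicalSpace X] [AddCommGroup G]
    {p : E → X} {T : G → E → E} (h : PCov p T) {A A' : Set X} {a a' : G}
    (hA : CircLike p T A a) (hA' : CircLike p T A' a') (φ : X ≃ₜ X)
    (hφ : (φ : C(X, X)).Homotopic (ContinuousMap.id X)) (him : φ '' A = A') :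
    a = a' ∨ a = -a' := by
  subst him
  obtain ⟨f, r, hrf, hfr, ha⟩ := hA
  obtain ⟨f', r', hrf', hfr', ha'⟩ := hA'
  let ψ : A ≃ₜ (φ '' A) := φ.image A
  let ψ1 : C(A, φ '' A) := ψ
  let ψ2 : C(φ '' A, A) := ψ.symm
  have hψ21 : ψ2.comp ψ1 = ContinuousMap.id _ := by ext x; simp [ψ1, ψ2]
  let j : C(A, X) := ⟨Subtype.val, continuous_subtype_val⟩
  let j' : C(φ '' A, X) := ⟨Subtype.val, continuous_subtype_val⟩
  have hjj : j'.comp ψ1 = (φ : C(X, X)).comp j := by ext x; rfl
  let u : C(UnitAddCircle, UnitAddCircle) := (r'.comp ψ1).comp f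
  let u' : C(UnitAddCircle, UnitAddCircle) := (r.comp ψ2).comp f'
  have h1 : (u'.comp u).Homotopic (ContinuousMap.id _) := by
    have e1 : u'.comp u = (r.comp ψ2).comp ((f'.comp r').comp (ψ1.comp f)) := rfl
    have e2 : ((r.comp ψ2).comp ((f'.comp r').comp (ψ1.comp f))).Homotopic
        ((r.comp ψ2).comp ((ContinuousMap.id _).comp (ψ1.comp f))) :=
      (ContinuousMap.Homotopic.refl _).comp (hfr'.comp (ContinuousMap.Homotopic.refl _))
    have e3 : (r.comp ψ2).comp ((ContinuousMap.id _).comp (ψ1.comp f)) = r.comp f := by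
      ext x
      have := congrArg (fun k => k (f x)) hψ21
      simp only [ContinuousMap.comp_apply, ContinuousMap.id_apply] at this ⊢
      rw [this]
    rw [e1]
    rw [e3] at e2
    exact e2.trans hrf
  have h2 : ((j'.comp f').comp u).Homotopic (j.comp f) := by
    have e1 : (j'.comp f').comp u = j'.comp ((f'.comp r').comp (ψ1.comp f)) := rfl
    have e2 : (j'.comp ((f'.comp r').comp (ψ1.comp f))).Homotopic
        (j'.comp ((ContinuousMap.id _).comp (ψ1.comp f))) :=
      (ContinuousMap.Homotopic.refl _).comp (hfr'.comp (ContinuousMap.Homotopic.refl _))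
    have e3 : j'.comp ((ContinuousMap.id _).comp (ψ1.comp f)) =
        (φ : C(X, X)).comp (j.comp f) := by
      ext x
      rfl
    have e4 : ((φ : C(X, X)).comp (j.comp f)).Homotopic ((ContinuousMap.id X).comp (j.comp f)) :=
      hφ.comp (ContinuousMap.Homotopic.refl _)
    rw [e1]
    rw [e3] at e2
    exact e2.trans e4
  rcases deg_unit h1 with hd | hd
  · have h3 := h.hol_homotopic h2 (h.hol_comp ha' hd)
    left
    have := h.hol_unique ha h3
    simpa using this
  · have h3 := h.hol_homotopic h2 (h.hol_comp ha' hd)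
    right
    have := h.hol_unique ha h3
    simpa using this

end Pool.Agent.TH640
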