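import Mathlib
import Pool.Agent.TH640.Defs
import Pool.Agent.TH640.Hol

/-!
# Collapses and sectors: deformation retractions

Helper file.
-/

open Finset Topology ContinuousMap unitInterval

namespace Pool.Agent.TH640

/-- `B` is a deformation retract of `A`. -/
def DR {Y : Type} [TopologicalSpace Y] (A B : Set Y) : Prop :=
  ∃ (h : B ⊆ A) (ρ : C(A, B)), (∀ b : B, ρ ⟨b.1, h b.2⟩ = b) ∧
    ((⟨Set.inclusion h, continuous_inclusion h⟩ : C(B, A)).comp ρ).Homotopic (ContinuousMap.id A)

theorem DR.refl {Y : Type} [TopologicalSpace Y] (A : Set Y) : DR A A :=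
  ⟨subset_rfl, ContinuousMap.id A, fun _ => rfl, by
    have : (⟨Set.inclusion (subset_refl A), continuous_inclusion (subset_refl A)⟩ : C(A, A)).comp
      (ContinuousMap.id A) = ContinuousMap.id A := by ext x; rfl
    rw [this]⟩

theorem DR.trans {Y : Type} [TopologicalSpace Y] {A B C : Set Y} (h1 : DR A B) (h2 : DR B C) :
    DR A C := by
  obtain ⟨hBA, ρ, hρ, H⟩ := h1
  obtain ⟨hCB, κ, hκ, H'⟩ := h2
  refine ⟨hCB.trans hBA, κ.comp ρ, fun b => ?_, ?_⟩
  · simp only [ContinuousMap.comp_apply]
    have := hρ ⟨b.1, hCB b.2⟩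
    simp only at this
    rw [this]
    exact hκ b
  · have e1 : (⟨Set.inclusion (hCB.trans hBA), continuous_inclusion (hCB.trans hBA)⟩ :
        C(C, A)).comp (κ.comp ρ) = (⟨Set.inclusion hBA, continuous_inclusion hBA⟩ : C(B, A)).comp
        (((⟨Set.inclusion hCB, continuous_inclusion hCB⟩ : C(C, B)).comp κ).comp ρ) := by
      ext x; rfl
    rw [e1]
    have e2 := (ContinuousMap.Homotopic.refl
      (⟨Set.inclusion hBA, continuous_inclusion hBA⟩ : C(B, A))).comp
        (H'.comp (ContinuousMap.Homotopic.refl ρ))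
    refine e2.trans ?_
    rw [ContinuousMap.id_comp]
    exact H

theorem DR.of {Y : Type} [TopologicalSpace Y] {A B : Set Y} (H : ℝ → Y → Y)
    (hc : ContinuousOn (fun q : ℝ × Y => H q.1 q.2) (Set.Icc 0 1 ×ˢ A))
    (hA : ∀ t ∈ Set.Icc (0 : ℝ) 1, ∀ x ∈ A, H t x ∈ A) (h0 : ∀ x ∈ A, H 0 x = x)
    (h1 : ∀ x ∈ A, H 1 x ∈ B) (hB : ∀ x ∈ B, H 1 x = x) (hBA : B ⊆ A) : DR A B := by
  have hc1 : Continuous fun x : A => H 1 x.1 := by
    refine hc.comp_continuous (f := fun x : A => ((1 : ℝ), x.1)) (by fun_prop) ?_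
    intro x
    exact ⟨⟨zero_le_one, le_rfl⟩, x.2⟩
  refine ⟨hBA, ⟨fun x => ⟨H 1 x.1, h1 x.1 x.2⟩, hc1.subtype_mk _⟩, fun b => ?_, ?_⟩
  · apply Subtype.ext
    exact hB b.1 b.2
  · refine ContinuousMap.Homotopic.symm ⟨⟨⟨fun q => ⟨H q.1 q.2.1, hA q.1 ⟨q.1.2.1, q.1.2.2⟩ _ q.2.2⟩,
      ?_⟩, ?_, ?_⟩⟩
    · refine Continuous.subtype_mk ?_ _
      refine hc.comp_continuous (f := fun q : I × A => ((q.1 : ℝ), q.2.1)) (by fun_prop) ?_
      intro q
      exact ⟨⟨q.1.2.1, q.1.2.2⟩, q.2.2⟩
    · intro x
      apply Subtype.ext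
      exact h0 x.1 x.2
    · intro x
      rfl

/-- Transfer of a deformation retraction onto a circle to a sector. -/
theorem circLike_of {E G Y : Type} [TopologicalSpace E] [TopologicalSpace Y]
    {X0 : Set Y} {p : E → X0} {T : G → E → E} {A : Set X0} {C : Set Y} {a : G}
    (hDR : DR (Subtype.val '' A) C) (g : UnitAddCircle ≃ₜ C) (hC : C ⊆ X0)
    (hol : HasHol p T (⟨fun θ => ⟨(g θ).1, hC (g θ).2⟩, by fun_prop⟩ : C(UnitAddCircle, X0)) a) :
    CircLike p T A a := by
  obtain ⟨hBA, ρ, hρ, H⟩ := hDR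
  have hmem : ∀ y : C, ∃ x : X0, x ∈ A ∧ x.1 = y.1 := fun y => by
    obtain ⟨x, hx, hxy⟩ := hBA y.2
    exact ⟨x, hx, hxy⟩
  -- the homeomorphism between `A` and its image
  let e1 : C(A, ↥(Subtype.val '' A)) := ⟨fun x => ⟨x.1.1, ⟨x.1, x.2, rfl⟩⟩, by fun_prop⟩
  have hX : ∀ y : ↥(Subtype.val '' A), y.1 ∈ X0 := fun y => by
    obtain ⟨x, hx, hxy⟩ := y.2
    rw [← hxy]; exact x.2
  have hXA : ∀ y : ↥(Subtype.val '' A), (⟨y.1, hX y⟩ : X0) ∈ A := fun y => by
    obtain ⟨x, hx, hxy⟩ := y.2
    have : x = (⟨y.1, hX y⟩ : X0) := Subtype.ext hxy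
    rw [← this]; exact hx
  let e2 : C(↥(Subtype.val '' A), A) := ⟨fun y => ⟨⟨y.1, hX y⟩, hXA y⟩, by fun_prop⟩
  let ι : C(C, ↥(Subtype.val '' A)) := ⟨Set.inclusion hBA, continuous_inclusion hBA⟩
  let g1 : C(UnitAddCircle, C) := g
  let g2 : C(C, UnitAddCircle) := g.symm
  refine ⟨e2.comp (ι.comp g1), g2.comp (ρ.comp e1), ?_, ?_, ?_⟩
  · have : (g2.comp (ρ.comp e1)).comp (e2.comp (ι.comp g1)) = ContinuousMap.id _ := by
      ext θ
      change g.symm (ρ ⟨(g θ).1, _⟩) = θ
      rw [hρ (g θ)]
      simp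
    rw [this]
  · have h1 : (e2.comp (ι.comp g1)).comp (g2.comp (ρ.comp e1)) =
        e2.comp ((ι.comp ρ).comp e1) := by
      ext x
      change ((g (g.symm (ρ (e1 x)))).1) = (ρ (e1 x)).1
      rw [g.apply_symm_apply]
    rw [h1]
    have h2 := (ContinuousMap.Homotopic.refl e2).comp (H.comp (ContinuousMap.Homotopic.refl e1))
    refine h2.trans ?_
    have h3 : e2.comp ((ContinuousMap.id _).comp e1) = ContinuousMap.id _ := by
      ext x
      rfl
    rw [h3]
  · exact hol

variable {n : ℕ}

theorem mem_supp {x : Fin n → ℝ} {v : Fin n} : v ∈ supp x ↔ x v ≠ 0 := by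
  classical
  simp [supp]

theorem supp_nonempty {x : Fin n → ℝ} (h : ∑ v, x v = 1) : (supp x).Nonempty := by
  by_contra hne
  rw [Finset.not_nonempty_iff_eq_empty] at hne
  have : ∑ v, x v = 0 := Finset.sum_eq_zero fun v _ => by
    by_contra hv
    have : v ∈ supp x := mem_supp.2 hv
    rw [hne] at this
    simp at this
  rw [h] at this
  exact one_ne_zero this

/-- A family of simplices closed under passing to faces. -/
def IsComplex (S : Fam n) : Prop :=
  (∀ s ∈ S, s.Nonempty) ∧ ∀ s ∈ S, ∀ t ⊆ s, t.Nonempty → t ∈ S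

theorem isComplex_collapse {S S' : Fam n} (hS : IsComplex S) (h : CollapseStep S S') :
    IsComplex S' := by
  obtain ⟨t, v, hv, ht, hvt, hfree, rfl⟩ := h
  constructor
  · intro s hs
    exact hS.1 s (Finset.mem_of_mem_erase (Finset.mem_of_mem_erase hs))
  · intro s hs r hr hne
    simp only [Finset.mem_erase] at hs ⊢
    obtain ⟨h1, h2, h3⟩ := hs
    refine ⟨?_, ?_, hS.2 s h3 r hr hne⟩
    · rintro rfl
      rcases hfree s h3 ((Finset.subset_insert v t).trans hr) with h | h
      · exact h2 h
      · exact h1 h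
    · rintro rfl
      rcases hfree s h3 hr with h | h
      · exact h2 h
      · exact h1 h

theorem dr_collapse {S S' : Fam n} (hS : IsComplex S) (h : CollapseStep S S') :
    DR (realize S) (realize S') := by
  obtain ⟨t, v, hv, ht, hvt, hfree, rfl⟩ := h
  have htne : t.Nonempty := hS.1 t ht
  let m : (Fin n → ℝ) → ℝ := fun x => t.inf' htne x
  have hmc : Continuous m := Continuous.finset_inf'_apply htne fun i _ => continuous_apply i
  let d : Fin n → ℝ := fun u => if u ∈ t then 1 else if u = v then -(t.card : ℝ) else 0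
  have hd : ∑ u, d u = 0 := by
    have h1 : ∀ u, d u = (if u ∈ t then 1 else 0) + (if u = v then -(t.card : ℝ) else 0) := by
      intro u
      by_cases h1 : u ∈ t
      · have : u ≠ v := fun h => hv (h ▸ h1)
        simp [d, h1, this]
      · simp [d, h1]
    simp_rw [h1, Finset.sum_add_distrib]
    simp
  have hm0 : ∀ x ∈ realize S, 0 ≤ m x := fun x hx => Finset.le_inf' _ _ fun u _ => hx.1 u
  have hmle : ∀ (x : Fin n → ℝ) (u), u ∈ t → m x ≤ x u := fun x u hu => Finset.inf'_le _ hu
  have hmex : ∀ x : Fin n → ℝ, ∃ u ∈ t, m x = x u := fun x => Finset.exists_mem_eq_inf' htne x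
  have hmpos : ∀ x ∈ realize S, 0 < m x → supp x = t ∨ supp x = insert v t := fun x hx hpos =>
    hfree _ hx.2.2 fun u hu => mem_supp.2 (lt_of_lt_of_le hpos (hmle x u hu)).ne'
  let H : ℝ → (Fin n → ℝ) → (Fin n → ℝ) := fun s x u => x u - s * m x * d u
  have hHsum : ∀ s x, x ∈ realize S → ∑ u, H s x u = 1 := fun s x hx => by
    simp only [H, Finset.sum_sub_distrib, ← Finset.mul_sum, hd, mul_zero, sub_zero]
    exact hx.2.1
  have hHnn : ∀ s ∈ Set.Icc (0 : ℝ) 1, ∀ x ∈ realize S, ∀ u, 0 ≤ H s x u := fun s hs x hx u => by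
    have h0 := hm0 x hx
    simp only [H, d]
    split_ifs with h1 h2
    · have := hmle x u h1
      nlinarith [hs.1, hs.2]
    · have := hx.1 u
      have h3 : 0 ≤ s * m x * (t.card : ℝ) := by have := hs.1; positivity
      linarith
    · simpa using hx.1 u
  have hHsupp : ∀ s x, x ∈ realize S → 0 < m x → supp (H s x) ⊆ insert v t :=
    fun s x hx hpos u hu => by
      by_contra hu'
      rw [mem_supp] at hu
      apply hu
      have h1 : u ∉ t := fun h => hu' (Finset.mem_insert_of_mem h)
      have h2 : u ≠ v := fun h => hu' (h ▸ Finset.mem_insert_self v t)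
      have h3 : x u = 0 := by
        by_contra hx0
        have h4 := mem_supp.2 hx0
        rcases hmpos x hx hpos with h | h
        · rw [h] at h4; exact h1 h4
        · rw [h] at h4; exact hu' h4
      simp [H, d, h1, h2, h3]
  have hHzero : ∀ s (x : Fin n → ℝ), m x = 0 → H s x = x := fun s x h0 => by
    funext u; simp [H, h0]
  refine DR.of H ?_ ?_ ?_ ?_ ?_ ?_
  · apply Continuous.continuousOn
    apply continuous_pi
    intro u
    have h1 : Continuous fun q : ℝ × (Fin n → ℝ) => m q.2 := hmc.comp continuous_snd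
    have h2 : Continuous fun q : ℝ × (Fin n → ℝ) => q.2 u := by fun_prop
    simp only [H]
    fun_prop
  · intro s hs x hx
    rcases (hm0 x hx).lt_or_eq with hpos | h0
    · refine ⟨hHnn s hs x hx, hHsum s x hx, ?_⟩
      exact hS.2 _ hvt _ (hHsupp s x hx hpos) (supp_nonempty (hHsum s x hx))
    · rw [hHzero s x h0.symm]; exact hx
  · intro x hx
    funext u; simp [H]
  · intro x hx
    refine ⟨hHnn 1 ⟨zero_le_one, le_rfl⟩ x hx, hHsum 1 x hx, ?_⟩
    obtain ⟨u0, hu0, hu0m⟩ := hmex x
    have hz : H 1 x u0 = 0 := by simp [H, d, hu0, hu0m]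
    have hnot : u0 ∉ supp (H 1 x) := fun h => (mem_supp.1 h) hz
    have hmem : supp (H 1 x) ∈ S := by
      rcases (hm0 x hx).lt_or_eq with hpos | h0
      · exact hS.2 _ hvt _ (hHsupp 1 x hx hpos) (supp_nonempty (hHsum 1 x hx))
      · rw [hHzero 1 x h0.symm]; exact hx.2.2
    simp only [Finset.mem_erase]
    refine ⟨fun h => hnot ?_, fun h => hnot ?_, hmem⟩
    · rw [h]; exact Finset.mem_insert_of_mem hu0
    · rw [h]; exact hu0
  · intro x hx
    have hxS : x ∈ realize S :=
      ⟨hx.1, hx.2.1, Finset.mem_of_mem_erase (Finset.mem_of_mem_erase hx.2.2)⟩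
    have h3 := hx.2.2
    simp only [Finset.mem_erase] at h3
    rcases (hm0 x hxS).lt_or_eq with hpos | h0
    · rcases hmpos x hxS hpos with h | h
      · exact absurd h h3.2.1
      · exact absurd h h3.1
    · exact hHzero 1 x h0.symm
  · intro x hx
    exact ⟨hx.1, hx.2.1, Finset.mem_of_mem_erase (Finset.mem_of_mem_erase hx.2.2)⟩

theorem dr_collapses {S S' : Fam n} (hS : IsComplex S)
    (h : Relation.ReflTransGen CollapseStep S S') :
    DR (realize S) (realize S') ∧ IsComplex S' := by
  induction h with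
  | refl => exact ⟨DR.refl _, hS⟩
  | tail _ h2 ih =>
    exact ⟨ih.1.trans (dr_collapse ih.2 h2), isComplex_collapse ih.2 h2⟩

theorem isComplex_faces (K : Fam n) : IsComplex (faces K) := by
  constructor
  · intro s hs
    simp only [faces, Finset.mem_filter] at hs
    exact hs.2.1
  · intro s hs t hts hne
    simp only [faces, Finset.mem_filter, Finset.mem_univ, true_and] at hs ⊢
    obtain ⟨_, F, hF, hsF⟩ := hs
    exact ⟨hne, F, hF, hts.trans hsF⟩

theorem isComplex_mono (K : Fam n) (L : Fin n → Fin 3) (i : Fin 3) :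
    IsComplex (cells K L {i}) := by
  constructor
  · intro s hs
    simp only [cells, Finset.mem_filter] at hs
    exact (isComplex_faces K).1 s hs.1
  · intro s hs t hts hne
    simp only [cells, Finset.mem_filter] at hs ⊢
    refine ⟨(isComplex_faces K).2 s hs.1 t hts hne, ?_⟩
    apply Finset.eq_singleton_iff_nonempty_unique_mem.2
    refine ⟨hne.image L, fun j hj => ?_⟩
    have : j ∈ s.image L := Finset.image_subset_image hts hj
    rw [hs.2] at this
    simpa using this

theorem weight_nonneg {L : Fin n → Fin 3} {x : Fin n → ℝ} (hx : ∀ v, 0 ≤ x v) (i : Fin 3) :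
    0 ≤ weight L x i :=
  Finset.sum_nonneg fun v _ => by split_ifs <;> simp [hx]

theorem weight_sum (L : Fin n → Fin 3) (x : Fin n → ℝ) : ∑ i, weight L x i = ∑ v, x v := by
  simp only [weight]
  rw [Finset.sum_comm]
  apply Finset.sum_congr rfl
  intro v _
  simp

theorem dr_sector (K : Fam n) (L : Fin n → Fin 3) (i : Fin 3) :
    DR (Subtype.val '' sector K L i) (realize (cells K L {i})) := by
  have hmem : ∀ x, x ∈ Subtype.val '' sector K L i ↔
      x ∈ realize (faces K) ∧ ∀ j, weight L x j ≤ weight L x i := by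
    intro x
    constructor
    · rintro ⟨y, hy, rfl⟩
      exact ⟨y.2, hy⟩
    · rintro ⟨h1, h2⟩
      exact ⟨⟨x, h1⟩, h2, rfl⟩
  have hwpos : ∀ x, x ∈ Subtype.val '' sector K L i → 0 < weight L x i := by
    intro x hx
    rw [hmem] at hx
    have h1 := weight_sum L x
    rw [hx.1.2.1, Fin.sum_univ_three] at h1
    have := hx.2 0
    have := hx.2 1
    have := hx.2 2
    linarith
  let H : ℝ → (Fin n → ℝ) → (Fin n → ℝ) := fun s x u =>
    (1 - s) * x u + s * (if L u = i then x u / weight L x i else 0)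
  have hwi : ∀ x, x ∈ Subtype.val '' sector K L i →
      ∑ u, (if L u = i then x u / weight L x i else 0) = 1 := by
    intro x hx
    have h1 : ∀ u, (if L u = i then x u / weight L x i else 0) =
        (if L u = i then x u else 0) / weight L x i := by
      intro u; split_ifs <;> simp
    simp_rw [h1, ← Finset.sum_div]
    exact div_self (hwpos x hx).ne'
  have hHsum : ∀ s x, x ∈ Subtype.val '' sector K L i → ∑ u, H s x u = 1 := by
    intro s x hx
    simp only [H, Finset.sum_add_distrib, ← Finset.mul_sum]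
    rw [hwi x hx, ((hmem x).1 hx).1.2.1]
    ring
  have hHnn : ∀ s ∈ Set.Icc (0 : ℝ) 1, ∀ x, x ∈ Subtype.val '' sector K L i →
      ∀ u, 0 ≤ H s x u := by
    intro s hs x hx u
    have h1 := ((hmem x).1 hx).1.1 u
    have h2 := hwpos x hx
    have h3 : 0 ≤ (if L u = i then x u / weight L x i else 0) := by
      split_ifs
      · positivity
      · exact le_rfl
    have h4 : 0 ≤ 1 - s := by linarith [hs.2]
    have h5 := hs.1
    simp only [H]
    positivity
  have hHsupp : ∀ s x, supp (H s x) ⊆ supp x := by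
    intro s x u hu
    rw [mem_supp] at hu ⊢
    intro h0
    apply hu
    simp [H, h0]
  have hHw : ∀ s x, x ∈ Subtype.val '' sector K L i → ∀ j,
      weight L (H s x) j = (1 - s) * weight L x j + s * (if j = i then 1 else 0) := by
    intro s x hx j
    have h1 : ∀ u, (if L u = j then H s x u else 0) =
        (1 - s) * (if L u = j then x u else 0) +
          s * (if j = i then (if L u = i then x u / weight L x i else 0) else 0) := by
      intro u
      by_cases h1 : L u = j
      · subst h1
        by_cases h2 : L u = i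
        · simp [H, h2]
        · simp [H, h2]
      · by_cases h2 : j = i
        · subst h2
          simp [h1]
        · simp [h1, h2]
    unfold weight
    simp_rw [h1, Finset.sum_add_distrib, ← Finset.mul_sum]
    congr 2
    by_cases h2 : j = i
    · subst h2
      simp only [if_true]
      exact hwi x hx
    · simp [h2]
  refine DR.of H ?_ ?_ ?_ ?_ ?_ ?_
  · apply continuousOn_pi.2
    intro u
    have hwc : Continuous fun q : ℝ × (Fin n → ℝ) => weight L q.2 i := by
      unfold weight
      apply continuous_finsetSum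
      intro v _
      split_ifs
      · fun_prop
      · exact continuous_const
    simp only [H]
    by_cases hL : L u = i
    · simp only [hL, if_true]
      have h1 : ContinuousOn (fun q : ℝ × (Fin n → ℝ) => q.2 u / weight L q.2 i)
          (Set.Icc 0 1 ×ˢ (Subtype.val '' sector K L i)) := by
        apply ContinuousOn.div
        · fun_prop
        · exact hwc.continuousOn
        · intro q hq
          exact (hwpos _ hq.2).ne'
      apply ContinuousOn.add
      · fun_prop
      · exact continuous_fst.continuousOn.mul h1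
    · simp only [hL, if_false]
      fun_prop
  · intro s hs x hx
    rw [hmem]
    refine ⟨⟨hHnn s hs x hx, hHsum s x hx, ?_⟩, ?_⟩
    · exact (isComplex_faces K).2 _ ((hmem x).1 hx).1.2.2 _ (hHsupp s x)
        (supp_nonempty (hHsum s x hx))
    · intro j
      rw [hHw s x hx, hHw s x hx]
      have h1 := ((hmem x).1 hx).2 j
      have h2 : 0 ≤ 1 - s := by linarith [hs.2]
      have h3 : s * (if j = i then (1 : ℝ) else 0) ≤ s * (if i = i then (1 : ℝ) else 0) := by
        apply mul_le_mul_of_nonneg_left _ hs.1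
        rw [if_pos rfl]
        split_ifs
        · exact le_rfl
        · exact zero_le_one
      have h4 := mul_le_mul_of_nonneg_left h1 h2
      linarith
  · intro x hx
    funext u
    simp [H]
  · intro x hx
    refine ⟨hHnn 1 ⟨zero_le_one, le_rfl⟩ x hx, hHsum 1 x hx, ?_⟩
    have hne := supp_nonempty (hHsum 1 x hx)
    simp only [cells, Finset.mem_filter]
    refine ⟨(isComplex_faces K).2 _ ((hmem x).1 hx).1.2.2 _ (hHsupp 1 x) hne, ?_⟩
    apply Finset.eq_singleton_iff_nonempty_unique_mem.2
    refine ⟨hne.image L, fun j hj => ?_⟩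
    obtain ⟨u, hu, rfl⟩ := Finset.mem_image.1 hj
    rw [mem_supp] at hu
    by_contra hL
    apply hu
    simp [H, hL]
  · intro x hx
    have h1 := hx.2.2
    simp only [cells, Finset.mem_filter] at h1
    have hlab : ∀ u, L u ≠ i → x u = 0 := by
      intro u hu
      by_contra h0
      have h2 : L u ∈ (supp x).image L := Finset.mem_image_of_mem L (mem_supp.2 h0)
      rw [h1.2] at h2
      exact hu (by simpa using h2)
    have hw : weight L x i = 1 := by
      unfold weight
      rw [← hx.2.1]
      apply Finset.sum_congr rfl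
      intro u _
      by_cases hL : L u = i
      · simp [hL]
      · simp [hL, hlab u hL]
    funext u
    by_cases hL : L u = i
    · simp [H, hL, hw]
    · simp [H, hL, hlab u hL]
  · intro x hx
    rw [hmem]
    have h1 := hx.2.2
    simp only [cells, Finset.mem_filter] at h1
    have hlab : ∀ u, L u ≠ i → x u = 0 := by
      intro u hu
      by_contra h0
      have h2 : L u ∈ (supp x).image L := Finset.mem_image_of_mem L (mem_supp.2 h0)
      rw [h1.2] at h2
      exact hu (by simpa using h2)
    refine ⟨⟨hx.1, hx.2.1, h1.1⟩, fun j => ?_⟩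
    by_cases hj : j = i
    · rw [hj]
    · have : weight L x j = 0 := by
        unfold weight
        apply Finset.sum_eq_zero
        intro u _
        by_cases hL : L u = j
        · rw [if_pos hL]
          exact hlab u (by rw [hL]; exact hj)
        · rw [if_neg hL]
      rw [this]
      exact weight_nonneg hx.1 i

end Pool.Agent.TH640
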