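import Mathlib
import Pool.Agent.TH640.Defs
import Pool.Agent.TH640.Hol
import Pool.Agent.TH640.Retract

/-!
# The cyclic covering of a complex given by a cocycle

Helper file.  From a simplicial `1`-cocycle `h` with values in `ZMod 5` on the complex with facets
`K` we build the corresponding `5`-fold covering of `Body K`.
-/

open Finset Topology ContinuousMap

namespace Pool.Agent.TH640

variable {n : ℕ}

/-- `h` is a `1`-cocycle on the complex with facets `K`. -/
def IsCocycle (K : Fam n) (h : Fin n → Fin n → ZMod 5) : Prop :=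
  ∀ F ∈ K, ∀ u ∈ F, ∀ v ∈ F, ∀ w ∈ F, h u v + h v w = h u w

/-- the projection to the base, on coordinates -/
def proj (y : Fin n → ZMod 5 → ℝ) (v : Fin n) : ℝ := ∑ a, y v a

/-- the total space, as a set -/
def covSet (K : Fam n) (h : Fin n → Fin n → ZMod 5) : Set (Fin n → ZMod 5 → ℝ) :=
  {y | (∀ v a, 0 ≤ y v a) ∧ proj y ∈ realize (faces K) ∧
    ∀ v w a b, b ≠ a + h v w → y v a * y w b = 0}

theorem mem_realize_faces {K : Fam n} {x : Fin n → ℝ} :
    x ∈ realize (faces K) ↔ (∀ v, 0 ≤ x v) ∧ ∑ v, x v = 1 ∧ ∃ F ∈ K, ∀ v, v ∉ F → x v = 0 := by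
  constructor
  · rintro ⟨h1, h2, h3⟩
    simp only [faces, Finset.mem_filter] at h3
    obtain ⟨_, _, F, hF, hs⟩ := h3
    refine ⟨h1, h2, F, hF, fun v hv => ?_⟩
    by_contra h0
    exact hv (hs (mem_supp.2 h0))
  · rintro ⟨h1, h2, F, hF, hz⟩
    refine ⟨h1, h2, ?_⟩
    simp only [faces, Finset.mem_filter, Finset.mem_univ, true_and]
    refine ⟨supp_nonempty h2, F, hF, fun v hv => ?_⟩
    by_contra hv'
    exact (mem_supp.1 hv) (hz v hv')

theorem isClosed_realize (K : Fam n) : IsClosed (realize (faces K)) := by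
  have h : realize (faces K) = {x | ∀ v, 0 ≤ x v} ∩ ({x | ∑ v, x v = 1} ∩
      ⋃ F ∈ K, {x | ∀ v, v ∉ F → x v = 0}) := by
    ext x
    rw [mem_realize_faces]
    simp
  rw [h]
  refine IsClosed.inter ?_ (IsClosed.inter ?_ ?_)
  · simp only [Set.ofPred_forall]
    exact isClosed_iInter fun v => isClosed_le continuous_const (continuous_apply v)
  · exact isClosed_eq (by fun_prop) continuous_const
  · apply Set.Finite.isClosed_biUnion K.finite_toSet
    intro F _
    simp only [Set.ofPred_forall]
    exact isClosed_iInter fun v => isClosed_iInter fun _ =>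
      isClosed_eq (continuous_apply v) continuous_const

theorem continuous_proj : Continuous (proj : (Fin n → ZMod 5 → ℝ) → (Fin n → ℝ)) := by
  unfold proj
  fun_prop

theorem isClosed_covSet (K : Fam n) (h : Fin n → Fin n → ZMod 5) : IsClosed (covSet K h) := by
  have he : covSet K h = {y | ∀ v a, 0 ≤ y v a} ∩ (proj ⁻¹' realize (faces K) ∩
      {y | ∀ v w a b, b ≠ a + h v w → y v a * y w b = 0}) := by
    ext y
    rfl
  rw [he]
  refine IsClosed.inter ?_ (IsClosed.inter ?_ ?_)
  · simp only [Set.ofPred_forall]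
    exact isClosed_iInter fun v => isClosed_iInter fun a =>
      isClosed_le continuous_const (by fun_prop)
  · exact (isClosed_realize K).preimage continuous_proj
  · simp only [Set.ofPred_forall]
    exact isClosed_iInter fun v => isClosed_iInter fun w => isClosed_iInter fun a =>
      isClosed_iInter fun b => isClosed_iInter fun _ => isClosed_eq (by fun_prop) continuous_const

theorem isCompact_covSet (K : Fam n) (h : Fin n → Fin n → ZMod 5) : IsCompact (covSet K h) := by
  have hc : IsCompact (Set.pi Set.univ fun _ : Fin n =>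
      Set.pi Set.univ fun _ : ZMod 5 => Set.Icc (0 : ℝ) 1) :=
    isCompact_univ_pi fun _ => isCompact_univ_pi fun _ => isCompact_Icc
  refine hc.of_isClosed_subset (isClosed_covSet K h) ?_
  intro y hy v _ a _
  refine ⟨hy.1 v a, ?_⟩
  calc y v a ≤ proj y v := Finset.single_le_sum (f := fun a => y v a)
        (fun a _ => hy.1 v a) (Finset.mem_univ a)
    _ ≤ ∑ v, proj y v := Finset.single_le_sum (f := fun v => proj y v)
        (fun v _ => hy.2.1.1 v) (Finset.mem_univ v)
    _ = 1 := hy.2.1.2.1

/-- translation in the fibre -/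
def shift (c : ZMod 5) (y : Fin n → ZMod 5 → ℝ) : Fin n → ZMod 5 → ℝ := fun v a => y v (a - c)

theorem proj_shift (c : ZMod 5) (y : Fin n → ZMod 5 → ℝ) : proj (shift c y) = proj y := by
  funext v
  unfold proj shift
  exact Fintype.sum_equiv (Equiv.subRight c) _ _ (fun a => rfl)

theorem shift_mem {K : Fam n} {h : Fin n → Fin n → ZMod 5} {y : Fin n → ZMod 5 → ℝ}
    (hy : y ∈ covSet K h) (c : ZMod 5) : shift c y ∈ covSet K h := by
  refine ⟨fun v a => hy.1 _ _, ?_, fun v w a b hab => ?_⟩
  · rw [proj_shift]; exact hy.2.1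
  · apply hy.2.2 v w
    intro h0
    apply hab
    have : b = (a - c + h v w) + c := by rw [← h0]; ring
    rw [this]; ring

/-- the projection of the covering -/
def covP (K : Fam n) (h : Fin n → Fin n → ZMod 5) (y : covSet K h) : Body K :=
  ⟨proj y.1, y.2.2.1⟩

/-- the deck transformations -/
def covT (K : Fam n) (h : Fin n → Fin n → ZMod 5) (c : ZMod 5) (y : covSet K h) : covSet K h :=
  ⟨shift c y.1, shift_mem y.2 c⟩

variable {K : Fam n} {h : Fin n → Fin n → ZMod 5}

theorem cov_formula {y : Fin n → ZMod 5 → ℝ} (hy : y ∈ covSet K h) {v₀ : Fin n} {a₀ : ZMod 5}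
    (h0 : y v₀ a₀ ≠ 0) (v : Fin n) (a : ZMod 5) :
    y v a = if a = a₀ + h v₀ v then proj y v else 0 := by
  have h1 : ∀ a, a ≠ a₀ + h v₀ v → y v a = 0 := fun a ha => by
    have := hy.2.2 v₀ v a₀ a ha
    rcases mul_eq_zero.1 this with h2 | h2
    · exact absurd h2 h0
    · exact h2
  by_cases ha : a = a₀ + h v₀ v
  · rw [if_pos ha]
    unfold proj
    rw [Finset.sum_eq_single a]
    · intro b _ hb
      exact h1 b (fun hb' => hb (hb'.trans ha.symm))
    · intro hna; exact absurd (Finset.mem_univ a) hna
  · rw [if_neg ha]; exact h1 a ha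

theorem cov_exists {y : Fin n → ZMod 5 → ℝ} (hy : y ∈ covSet K h) :
    ∃ v₀ a₀, y v₀ a₀ ≠ 0 := by
  by_contra hcon
  push Not at hcon
  have h1 : ∑ v, proj y v = 0 := by
    apply Finset.sum_eq_zero
    intro v _
    exact Finset.sum_eq_zero fun a _ => hcon v a
  rw [hy.2.1.2.1] at h1
  exact one_ne_zero h1

theorem cocycle_self (hco : IsCocycle K h) {F : Finset (Fin n)} (hF : F ∈ K) {v : Fin n}
    (hv : v ∈ F) : h v v = 0 := by
  have := hco F hF v hv v hv v hv
  simpa using this

theorem cocycle_symm (hco : IsCocycle K h) {F : Finset (Fin n)} (hF : F ∈ K) {v w : Fin n}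
    (hv : v ∈ F) (hw : w ∈ F) : h w v = - h v w := by
  have := hco F hF v hv w hw v hv
  rw [cocycle_self hco hF hv] at this
  exact eq_neg_of_add_eq_zero_right this

theorem proj_ne {y : Fin n → ZMod 5 → ℝ} (hy : y ∈ covSet K h) {v : Fin n} {a : ZMod 5}
    (h0 : y v a ≠ 0) : proj y v ≠ 0 := by
  have h1 : 0 < y v a := lt_of_le_of_ne (hy.1 v a) (Ne.symm h0)
  have h2 : y v a ≤ proj y v :=
    Finset.single_le_sum (f := fun a => y v a) (fun a _ => hy.1 v a) (Finset.mem_univ a)
  exact (lt_of_lt_of_le h1 h2).ne'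

theorem self_zero (hco : IsCocycle K h) {y : Fin n → ZMod 5 → ℝ} (hy : y ∈ covSet K h)
    {v : Fin n} {a : ZMod 5} (h0 : y v a ≠ 0) : h v v = 0 := by
  obtain ⟨F, hF, hz⟩ := (mem_realize_faces.1 hy.2.1).2.2
  have hvF : v ∈ F := by
    by_contra hv
    exact proj_ne hy h0 (hz v hv)
  exact cocycle_self hco hF hvF

theorem exists_of_proj {y : Fin n → ZMod 5 → ℝ} {v : Fin n} (h0 : proj y v ≠ 0) :
    ∃ a, y v a ≠ 0 := by
  by_contra hcon
  push Not at hcon
  exact h0 (Finset.sum_eq_zero fun a _ => hcon a)

/-- The covering attached to a cocycle is a principal covering. -/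
theorem pcov_K (hco : IsCocycle K h) : PCov (covP K h) (covT K h) := by
  have : CompactSpace (covSet K h) := isCompact_iff_compactSpace.1 (isCompact_covSet K h)
  have hcont : Continuous (covP K h) :=
    (continuous_proj.comp continuous_subtype_val).subtype_mk _
  have hev : ∀ v a, Continuous fun e : covSet K h => e.1 v a := fun v a =>
    (continuous_apply a).comp ((continuous_apply v).comp continuous_subtype_val)
  have hTcont : ∀ c, Continuous (covT K h c) := fun c => by
    refine Continuous.subtype_mk ?_ _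
    refine continuous_pi fun v => continuous_pi fun a => ?_
    exact hev v (a - c)
  have hTadd : ∀ g g' e, covT K h (g + g') e = covT K h g (covT K h g' e) := fun g g' e => by
    apply Subtype.ext
    funext v a
    change e.1 v (a - (g + g')) = e.1 v (a - g - g')
    rw [sub_sub]
  have hT0 : ∀ e, covT K h 0 e = e := fun e => by
    apply Subtype.ext
    funext v a
    change e.1 v (a - 0) = e.1 v a
    rw [sub_zero]
  have hmap : ∀ g e, covP K h (covT K h g e) = covP K h e := fun g e =>
    Subtype.ext (proj_shift g e.1)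
  have hfree : ∀ g g' e, covT K h g e = covT K h g' e → g = g' := fun g g' e hgg => by
    obtain ⟨v₀, a₀, h0⟩ := cov_exists e.2
    have h1 : e.1 v₀ (a₀ + g - g) = e.1 v₀ (a₀ + g - g') :=
      congrFun (congrFun (congrArg Subtype.val hgg) v₀) (a₀ + g)
    rw [add_sub_cancel_right] at h1
    have h2 : e.1 v₀ (a₀ + g - g') ≠ 0 := h1 ▸ h0
    have h3 := cov_formula e.2 h0 v₀ (a₀ + g - g')
    have h4 : a₀ + g - g' = a₀ + h v₀ v₀ := by
      by_contra hne
      rw [if_neg hne] at h3
      exact h2 h3
    rw [self_zero hco e.2 h0, add_zero] at h4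
    have h5 : g - g' = 0 := by
      have : a₀ + (g - g') = a₀ + 0 := by rw [← add_sub_assoc, h4, add_zero]
      exact add_left_cancel this
    exact sub_eq_zero.1 h5
  have htrans : ∀ e e', covP K h e = covP K h e' → ∃ g, covT K h g e = e' := fun e e' hee => by
    obtain ⟨v₀, a₀, h0⟩ := cov_exists e.2
    have hpr : proj e.1 = proj e'.1 := congrArg Subtype.val hee
    obtain ⟨a₁, h1⟩ := exists_of_proj (y := e'.1) (v := v₀) (by rw [← hpr]; exact proj_ne e.2 h0)
    refine ⟨a₁ - a₀, Subtype.ext ?_⟩
    funext v a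
    change e.1 v (a - (a₁ - a₀)) = e'.1 v a
    rw [cov_formula e.2 h0, cov_formula e'.2 h1, hpr]
    have : (a - (a₁ - a₀) = a₀ + h v₀ v) ↔ (a = a₁ + h v₀ v) := by
      constructor
      · intro h; rw [sub_eq_iff_eq_add] at h; rw [h]; ring
      · intro h; rw [h]; ring
    simp only [this]
  have hsurj : Function.Surjective (covP K h) := fun x => by
    obtain ⟨F, hF, hz⟩ := (mem_realize_faces.1 x.2).2.2
    obtain ⟨v₀, hv₀⟩ := supp_nonempty x.2.2.1
    have hin : ∀ v, x.1 v ≠ 0 → v ∈ F := fun v hv => by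
      by_contra hvF
      exact hv (hz v hvF)
    have hsum : proj (fun v a => if a = h v₀ v then x.1 v else 0) = x.1 := by
      funext v
      simp [proj]
    refine ⟨⟨fun v a => if a = h v₀ v then x.1 v else 0, ⟨?_, ?_, ?_⟩⟩, ?_⟩
    · intro v a
      simp only
      split_ifs
      · exact x.2.1 v
      · exact le_rfl
    · rw [hsum]; exact x.2
    · intro v w a b hab
      simp only
      by_cases h1 : a = h v₀ v
      · by_cases h2 : b = h v₀ w
        · rw [if_pos h1, if_pos h2]
          by_cases h3 : x.1 v = 0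
          · simp [h3]
          · by_cases h4 : x.1 w = 0
            · simp [h4]
            · exfalso
              apply hab
              rw [h1, h2]
              exact (hco F hF v₀ (hin v₀ (mem_supp.1 hv₀)) v (hin v h3) w (hin w h4)).symm
        · rw [if_neg h2]; simp
      · rw [if_neg h1]; simp
    · exact Subtype.ext hsum
  have hquot : IsQuotientMap (covP K h) := hcont.isClosedMap.isQuotientMap hcont hsurj
  let act : AddAction (ZMod 5) (covSet K h) :=
    { vadd := covT K h
      zero_vadd := hT0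
      add_vadd := hTadd }
  have hcov : IsAddQuotientCoveringMap (covP K h) (ZMod 5) :=
    { hquot with
      continuous_const_vadd := hTcont
      apply_eq_iff_mem_orbit := by
        intro e₁ e₂
        constructor
        · intro he
          obtain ⟨g, hg⟩ := htrans e₂ e₁ he.symm
          exact ⟨g, hg⟩
        · rintro ⟨g, hg⟩
          have : covT K h g e₂ = e₁ := hg
          rw [← this, hmap]
      disjoint := by
        intro e
        obtain ⟨v₀, a₀, h0⟩ := cov_exists e.2
        refine ⟨{e' | e'.1 v₀ a₀ ≠ 0}, ?_, ?_⟩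
        · apply IsOpen.mem_nhds _ h0
          exact isOpen_ne_fun (hev v₀ a₀) continuous_const
        · rintro g ⟨e', ⟨e'', he'', rfl⟩, he'⟩
          have h1 : e''.1 v₀ (a₀ - g) ≠ 0 := he'
          have h2 : e''.1 v₀ a₀ ≠ 0 := he''
          have h3 := cov_formula e''.2 h2 v₀ (a₀ - g)
          have h4 : a₀ - g = a₀ + h v₀ v₀ := by
            by_contra hne
            rw [if_neg hne] at h3
            exact h1 h3
          rw [self_zero hco e''.2 h2, add_zero] at h4
          exact sub_eq_self.1 h4 }
  exact ⟨hcov.isCoveringMap, hsurj, hTcont, hmap, hfree, htrans, hTadd⟩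

end Pool.Agent.TH640
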