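import Mathlib
import Pool.Agent.TH640.Defs
import Pool.Agent.TH640.Bits
import Pool.Agent.TH640.CoverK

/-!
# Certificate checkers for families of cells, collapses, connectivity, orientations

Helper file.
-/

open Finset

namespace Pool.Agent.TH640

variable {n : ℕ}

theorem toFam_cons (m : ℕ) (l : List ℕ) :
    (toFam (m :: l) : Fam n) = insert (fs m) (toFam l) := by
  simp [toFam]

theorem card_toFam {l : List ℕ} (hl : ∀ m ∈ l, m < 2 ^ n) (hn : l.Nodup) :
    (toFam l : Fam n).card = l.length := by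
  unfold toFam
  rw [List.toFinset_card_of_nodup]
  · simp
  · exact List.Nodup.map_on (fun x hx y hy h => fs_inj (hl x hx) (hl y hy) h) hn

theorem card_toFam_le (l : List ℕ) : (toFam l : Fam n).card ≤ l.length := by
  unfold toFam
  exact (List.toFinset_card_le _).trans (by simp)

/-! ### Labels -/

/-- `k ∩ M = ∅` -/
def zB (k M : ℕ) : Bool := Nat.beq (Nat.land k M) 0

theorem zB_iff {k M : ℕ} (hk : k < 2 ^ n) :
    zB k M = true ↔ ∀ i : Fin n, i ∈ (fs k : Finset (Fin n)) → ¬ M.testBit i = true := by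
  unfold zB
  rw [nbeq_iff]
  change k &&& M = 0 ↔ _
  constructor
  · intro h i hi hM
    rw [mem_fs] at hi
    have : (k &&& M).testBit i = true := by rw [Nat.testBit_and, hi, hM]; rfl
    rw [h] at this
    simp at this
  · intro h
    apply Nat.eq_of_testBit_eq
    intro i
    rw [Nat.zero_testBit, Nat.testBit_and]
    by_cases hi : i < n
    · cases h1 : k.testBit i with
      | false => rfl
      | true =>
        cases h2 : M.testBit i with
        | false => rfl
        | true => exact absurd h2 (h ⟨i, hi⟩ (mem_fs.2 h1))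
    · have hle : 2 ^ n ≤ 2 ^ i := Nat.pow_le_pow_right (by norm_num) (not_lt.1 hi)
      rw [Nat.testBit_lt_two_pow (lt_of_lt_of_le hk hle)]
      rfl

/-- emptiness flag `z` agrees with membership flag `j` -/
def eqJ (z j : Bool) : Bool := Bool.rec z (notB z) j

/-- label masks and label set -/
structure Lab where
  m0 : ℕ
  m1 : ℕ
  m2 : ℕ
  j0 : Bool
  j1 : Bool
  j2 : Bool

/-- the set with mask `k` has exactly the labels of `Λ` -/
def labOK (Λ : Lab) (k : ℕ) : Bool :=
  andB (eqJ (zB k Λ.m0) Λ.j0) (andB (eqJ (zB k Λ.m1) Λ.j1) (eqJ (zB k Λ.m2) Λ.j2))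

/-- `Λ` encodes the labelling `L` and the set of labels `J`. -/
structure LabSpec (L : Fin n → Fin 3) (J : Finset (Fin 3)) (Λ : Lab) : Prop where
  h0 : ∀ i : Fin n, Λ.m0.testBit i = true ↔ L i = 0
  h1 : ∀ i : Fin n, Λ.m1.testBit i = true ↔ L i = 1
  h2 : ∀ i : Fin n, Λ.m2.testBit i = true ↔ L i = 2
  k0 : 0 ∈ J ↔ Λ.j0 = true
  k1 : 1 ∈ J ↔ Λ.j1 = true
  k2 : 2 ∈ J ↔ Λ.j2 = true

theorem eqJ_zB {L : Fin n → Fin 3} {j : Fin 3} {M k : ℕ} {b : Bool} (hk : k < 2 ^ n)
    (hM : ∀ i : Fin n, M.testBit i = true ↔ L i = j) :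
    eqJ (zB k M) b = true ↔ (j ∈ (fs k : Finset (Fin n)).image L ↔ b = true) := by
  have h1 : zB k M = true ↔ ¬ j ∈ (fs k : Finset (Fin n)).image L := by
    rw [zB_iff hk, Finset.mem_image]
    constructor
    · rintro h ⟨i, hi, hij⟩
      exact h i hi ((hM i).2 hij)
    · intro h i hi hMi
      exact h ⟨i, hi, (hM i).1 hMi⟩
  cases b with
  | false =>
    change zB k M = true ↔ _
    rw [h1]; simp
  | true =>
    change notB (zB k M) = true ↔ _
    rw [notB_iff, h1]; simp

theorem labOK_iff {L : Fin n → Fin 3} {J : Finset (Fin 3)} {Λ : Lab} (hΛ : LabSpec L J Λ)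
    {k : ℕ} (hk : k < 2 ^ n) : labOK Λ k = true ↔ (fs k : Finset (Fin n)).image L = J := by
  unfold labOK
  rw [andB_iff, andB_iff, eqJ_zB hk hΛ.h0, eqJ_zB hk hΛ.h1, eqJ_zB hk hΛ.h2, ← hΛ.k0, ← hΛ.k1,
    ← hΛ.k2]
  constructor
  · rintro ⟨h0, h1, h2⟩
    ext j
    fin_cases j
    · exact h0
    · exact h1
    · exact h2
  · intro h
    rw [h]
    exact ⟨Iff.rfl, Iff.rfl, Iff.rfl⟩

/-! ### All vertices -/

/-- all `v < n` satisfy `p` -/
def allN (p : ℕ → Bool) (n : ℕ) : Bool := Nat.rec true (fun k ih => Bool.rec false ih (p k)) n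

theorem allN_sound {p : ℕ → Bool} {m : ℕ} (h : allN p m = true) : ∀ v < m, p v = true := by
  induction m with
  | zero => intro v hv; omega
  | succ k ih =>
    have he : allN p (k + 1) = Bool.rec false (allN p k) (p k) := rfl
    rw [he] at h
    intro v hv
    cases hp : p k with
    | false => rw [hp] at h; simp at h
    | true =>
      rw [hp] at h
      rcases Nat.lt_succ_iff_lt_or_eq.1 hv with h1 | h1
      · exact ih h v h1
      · rw [h1]; exact hp

/-! ### Facets -/

/-- check of the facet tree: `k` is the mask of `w.2`, has `c` vertices, all `< n` -/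
noncomputable def facOK (n c : ℕ) (fT : BT (ℕ × List ℕ)) : Bool :=
  btAll (fun k _ => andB (Nat.blt k (Nat.pow 2 n)) (Nat.beq (pc n k) c)) fT

theorem facOK_sound {c : ℕ} {fT : BT (ℕ × List ℕ)} (h : facOK n c fT = true) :
    (∀ k ∈ btKeys fT, k < 2 ^ n) ∧ ∀ F ∈ (toFam (btKeys fT) : Fam n), F.card = c := by
  have h1 := btAll_sound h
  simp only [andB_iff, nbeq_iff, nblt_iff] at h1
  constructor
  · intro k hk
    obtain ⟨_, h2, _⟩ := h1 k hk
    exact h2
  · intro F hF
    obtain ⟨k, hk, rfl⟩ := mem_toFam.1 hF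
    obtain ⟨_, _, h2⟩ := h1 k hk
    rw [card_fs, h2]

/-! ### Families of cells -/

/-- check that the keys of `t` are exactly the cells with the given labels -/
noncomputable def chkCells (n : ℕ) (Λ : Lab) (MJ : ℕ) (fT : BT (ℕ × List ℕ)) (t : BT ℕ) : Bool :=
  andB (btAll (fun k w => andB (Nat.blt k (Nat.pow 2 n)) (andB (labOK Λ k)
    (andB (subB k w) (btMem w fT)))) t) <|
  andB (btAll (fun F _ => Bool.rec true (btMem (Nat.land F MJ) t) (labOK Λ (Nat.land F MJ))) fT) <|
  btAll (fun k _ => allN (fun v => Bool.rec true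
    (Bool.rec true (btMem (Nat.xor k (Nat.pow 2 v)) t) (labOK Λ (Nat.xor k (Nat.pow 2 v))))
      (tb k v)) n) t

theorem chkCells_sound {L : Fin n → Fin 3} {J : Finset (Fin 3)} {Λ : Lab} (hΛ : LabSpec L J Λ)
    (hJ : J.Nonempty) {MJ : ℕ} (hMJ : ∀ i : Fin n, MJ.testBit i = true ↔ L i ∈ J)
    {fT : BT (ℕ × List ℕ)} {t : BT ℕ} (hf : ∀ k ∈ btKeys fT, k < 2 ^ n)
    (h : chkCells n Λ MJ fT t = true) :
    (∀ k ∈ btKeys t, k < 2 ^ n) ∧
      (toFam (btKeys t) : Fam n) = cells (toFam (btKeys fT)) L J := by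
  unfold chkCells at h
  rw [andB_iff, andB_iff] at h
  obtain ⟨h1, h2, h3⟩ := h
  replace h1 := btAll_sound h1
  replace h2 := btAll_sound h2
  replace h3 := btAll_sound h3
  simp only [andB_iff, nblt_iff] at h1
  have hlt : ∀ k ∈ btKeys t, k < 2 ^ n := fun k hk => by
    obtain ⟨w, hw, _⟩ := h1 k hk
    exact hw
  refine ⟨hlt, ?_⟩
  have hdesc : ∀ k ∈ btKeys t, ∀ v : Fin n, v ∈ (fs k : Finset (Fin n)) →
      ((fs k : Finset (Fin n)).erase v).image L = J →
      Nat.xor k (Nat.pow 2 v) ∈ btKeys t := by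
    intro k hk v hv him
    obtain ⟨_, h4⟩ := h3 k hk
    have h5 := allN_sound h4 v v.2
    rw [tb_eq, mem_fs.1 hv] at h5
    have h6 : labOK Λ (Nat.xor k (Nat.pow 2 v)) = true := by
      rw [labOK_iff hΛ (xor_lt (hlt k hk) v.2), fs_xor_erase (mem_fs.1 hv)]
      exact him
    rw [h6] at h5
    exact btMem_sound h5
  ext s
  rw [mem_toFam]
  constructor
  · rintro ⟨k, hk, rfl⟩
    obtain ⟨w, hw1, hw2, hw3, hw4⟩ := h1 k hk
    have him := (labOK_iff hΛ hw1).1 hw2
    rw [cells, Finset.mem_filter, faces, Finset.mem_filter]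
    refine ⟨⟨Finset.mem_univ _, ?_, fs w, ?_, ?_⟩, him⟩
    · rw [← him] at hJ
      exact Finset.image_nonempty.1 hJ
    · exact mem_toFam.2 ⟨w, btMem_sound hw4, rfl⟩
    · exact (fs_subset hw1).2 hw3
  · intro hs
    rw [cells, Finset.mem_filter, faces, Finset.mem_filter] at hs
    obtain ⟨⟨_, hne, F, hF, hsF⟩, him⟩ := hs
    obtain ⟨f, hf1, rfl⟩ := mem_toFam.1 hF
    have hg : ∀ i : Fin n, i ∈ (fs (Nat.land f MJ) : Finset (Fin n)) ↔
        i ∈ (fs f : Finset (Fin n)) ∧ L i ∈ J := by
      intro i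
      rw [mem_fs, mem_fs]
      change (f &&& MJ).testBit i = true ↔ _
      rw [Nat.testBit_and, Bool.and_eq_true, hMJ]
    have hglt : Nat.land f MJ < 2 ^ n := lt_of_le_of_lt (Nat.and_le_left) (hf f hf1)
    have hsub : s ⊆ (fs (Nat.land f MJ) : Finset (Fin n)) := by
      intro i hi
      rw [hg]
      refine ⟨hsF hi, ?_⟩
      rw [← him]
      exact Finset.mem_image_of_mem L hi
    have hgim : (fs (Nat.land f MJ) : Finset (Fin n)).image L = J := by
      apply Finset.Subset.antisymm
      · intro j hj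
        obtain ⟨i, hi, rfl⟩ := Finset.mem_image.1 hj
        exact ((hg i).1 hi).2
      · rw [← him]
        exact Finset.image_subset_image hsub
    have hgk : Nat.land f MJ ∈ btKeys t := by
      obtain ⟨_, h4⟩ := h2 f hf1
      rw [(labOK_iff hΛ hglt).2 hgim] at h4
      exact btMem_sound h4
    have hmain : ∀ (c : ℕ) (k : ℕ), k ∈ btKeys t → (fs k : Finset (Fin n)).card = c →
        s ⊆ fs k → ∃ m ∈ btKeys t, fs m = s := by
      intro c
      induction c with
      | zero =>
        intro k _ hc hsk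
        rw [Finset.card_eq_zero] at hc
        rw [hc, Finset.subset_empty] at hsk
        rw [hsk] at hne
        exact absurd hne Finset.not_nonempty_empty
      | succ c ih =>
        intro k hk hc hsk
        by_cases hse : s = fs k
        · exact ⟨k, hk, hse.symm⟩
        · have hss : s ⊂ fs k := lt_of_le_of_ne hsk hse
          obtain ⟨v, hv, hvs⟩ := Finset.exists_of_ssubset hss
          have hsk' : s ⊆ (fs k : Finset (Fin n)).erase v := by
            intro i hi
            rw [Finset.mem_erase]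
            refine ⟨?_, hsk hi⟩
            rintro rfl
            exact hvs hi
          obtain ⟨w, hw1, hw2, hw3, hw4⟩ := h1 k hk
          have hkim := (labOK_iff hΛ hw1).1 hw2
          have him' : ((fs k : Finset (Fin n)).erase v).image L = J := by
            apply Finset.Subset.antisymm
            · rw [← hkim]
              exact Finset.image_subset_image (Finset.erase_subset _ _)
            · rw [← him]
              exact Finset.image_subset_image hsk'
          have hk' := hdesc k hk v hv him'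
          apply ih _ hk'
          · rw [fs_xor_erase (mem_fs.1 hv), Finset.card_erase_of_mem hv, hc]
            rfl
          · rw [fs_xor_erase (mem_fs.1 hv)]
            exact hsk'
    exact hmain _ _ hgk rfl hsub

/-- the list `S` consists of as many keys of `t` as there are -/
noncomputable def chkList (S : List ℕ) (t : BT ℕ) : Bool :=
  andB (allL (fun m => btMem m t) S) (Nat.beq (lenL S) (lenL (btKeys t)))

theorem chkList_sound {S : List ℕ} {t : BT ℕ} (ht : ∀ k ∈ btKeys t, k < 2 ^ n)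
    (h : chkList S t = true) (hS : S.Nodup) :
    (toFam S : Fam n) = toFam (btKeys t) := by
  unfold chkList at h
  rw [andB_iff, allL_iff, nbeq_iff, lenL_eq, lenL_eq] at h
  obtain ⟨h1, h2⟩ := h
  have hmem : ∀ m ∈ S, m ∈ btKeys t := fun m hm => btMem_sound (h1 m hm)
  apply Finset.eq_of_subset_of_card_le
  · intro s hs
    obtain ⟨m, hm, rfl⟩ := mem_toFam.1 hs
    exact mem_toFam.2 ⟨m, hmem m hm, rfl⟩
  · rw [card_toFam (fun m hm => ht m (hmem m hm)) hS, h2]
    exact card_toFam_le _

theorem chkList_lt {S : List ℕ} {t : BT ℕ} (ht : ∀ k ∈ btKeys t, k < 2 ^ n)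
    (h : chkList S t = true) : ∀ m ∈ S, m < 2 ^ n := by
  unfold chkList at h
  rw [andB_iff, allL_iff] at h
  exact fun m hm => ht m (btMem_sound (h.1 m hm))

/-! ### Collapses -/

/-- the list is `t₁, t₁ ∪ {v₁}, t₂, t₂ ∪ {v₂}, …` followed by a list passing the test `fin` -/
def colOK (n : ℕ) (fin : List ℕ → Bool) (vs : List ℕ) : List ℕ → Bool :=
  List.rec fin (fun v _ ih S =>
    List.rec false (fun t r _ =>
      List.rec false (fun s rest _ =>
        andB (Nat.beq s (Nat.lor t (Nat.pow 2 v))) <|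
        andB (notB (tb t v)) <|
        andB (Nat.blt v n) <|
        andB (allL (fun m => notB (subB t m)) rest) (ih rest)) r) S) vs

theorem colOK_sound {fin : List ℕ → Bool} {vs S : List ℕ} (hS : ∀ m ∈ S, m < 2 ^ n)
    (h : colOK n fin vs S = true) :
    ∃ G : List ℕ, fin G = true ∧ (∀ m ∈ G, m < 2 ^ n) ∧ (G.Nodup → S.Nodup) ∧
      Relation.ReflTransGen CollapseStep (toFam S : Fam n) (toFam G) := by
  induction vs generalizing S with
  | nil => exact ⟨S, h, hS, id, Relation.ReflTransGen.refl⟩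
  | cons v vs ih =>
    match S, hS, h with
    | [], _, h => exact absurd h (by simp [colOK])
    | [t], _, h => exact absurd h (by simp [colOK])
    | t :: s :: rest, hS, h =>
      have he : colOK n fin (v :: vs) (t :: s :: rest) =
        (andB (Nat.beq s (Nat.lor t (Nat.pow 2 v))) <|
        andB (notB (tb t v)) <|
        andB (Nat.blt v n) <|
        andB (allL (fun m => notB (subB t m)) rest) (colOK n fin vs rest)) := rfl
      rw [he, andB_iff, andB_iff, andB_iff, andB_iff, nbeq_iff, notB_iff, nblt_iff, allL_iff,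
        tb_eq] at h
      obtain ⟨h1, h2, h3, h4, h5⟩ := h
      obtain ⟨G, hG1, hG2, hG3, hG4⟩ := ih (S := rest) (fun m hm => hS m (by simp [hm])) h5
      have ht : t < 2 ^ n := hS t (by simp)
      have hins : (fs s : Finset (Fin n)) = insert ⟨v, h3⟩ (fs t) := by
        rw [h1]; exact fs_or_insert (v := ⟨v, h3⟩)
      have hvt : (⟨v, h3⟩ : Fin n) ∉ (fs t : Finset (Fin n)) := by
        rw [mem_fs]; exact h2
      have hrest : ∀ m ∈ rest, ¬ (fs t : Finset (Fin n)) ⊆ fs m := by
        intro m hm hsub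
        rw [fs_subset ht] at hsub
        have := h4 m hm
        rw [notB_iff] at this
        exact this hsub
      refine ⟨G, hG1, hG2, ?_, ?_⟩
      · intro hG
        have hr := hG3 hG
        have h6 : t ∉ rest := fun hm => hrest t hm (Finset.Subset.refl _)
        have h7 : s ∉ rest := fun hm => hrest s hm (by
          rw [hins]; exact Finset.subset_insert _ _)
        have h8 : t ≠ s := by
          intro h
          rw [← h] at hins
          exact hvt (by rw [hins]; exact Finset.mem_insert_self _ _)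
        rw [List.nodup_cons, List.nodup_cons, List.mem_cons]
        exact ⟨fun h => h.elim h8 h6, h7, hr⟩
      · refine Relation.ReflTransGen.head ?_ hG4
        refine ⟨fs t, ⟨v, h3⟩, hvt, ?_, ?_, ?_, ?_⟩
        · rw [toFam_cons]; exact Finset.mem_insert_self _ _
        · rw [toFam_cons, toFam_cons, hins]; simp
        · intro r hr hsub
          rw [toFam_cons, toFam_cons, Finset.mem_insert, Finset.mem_insert] at hr
          rcases hr with hr | hr | hr
          · exact Or.inl hr
          · right; rw [hr, hins]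
          · exfalso
            obtain ⟨m, hm, rfl⟩ := mem_toFam.1 hr
            exact hrest m hm hsub
        · rw [toFam_cons, toFam_cons, ← hins]
          ext r
          simp only [Finset.mem_erase, Finset.mem_insert]
          constructor
          · intro hr
            obtain ⟨m, hm, rfl⟩ := mem_toFam.1 hr
            refine ⟨?_, ?_, Or.inr (Or.inr hr)⟩
            · intro h
              apply hrest m hm
              rw [h, hins]; exact Finset.subset_insert _ _
            · intro h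
              apply hrest m hm
              rw [h]
          · rintro ⟨hr1, hr2, hr | hr | hr⟩
            · exact absurd hr hr2
            · exact absurd hr hr1
            · exact hr

/-! ### Connectivity -/

/-- every entry `(m, p)` of `O` has its parent `p` among the previous entries, and `m`, `p` are
comparable -/
def connOK (O : List (ℕ × ℕ)) : List ℕ → Bool :=
  List.rec (fun _ => true) (fun q _ ih acc =>
    andB (anyL (fun a => Nat.beq q.2 a) acc) <|
    andB (orB (subB q.1 q.2) (subB q.2 q.1)) (ih (q.1 :: acc))) O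

/-- no repetition -/
def nodupOK (l : List ℕ) : Bool :=
  List.rec true (fun x l ih => andB (notB (anyL (fun y => Nat.beq x y) l)) ih) l

theorem nodupOK_sound {l : List ℕ} (h : nodupOK l = true) : l.Nodup := by
  induction l with
  | nil => exact List.nodup_nil
  | cons x l ih =>
    have he : nodupOK (x :: l) = andB (notB (anyL (fun y => Nat.beq x y) l)) (nodupOK l) := rfl
    rw [he, andB_iff, notB_iff, anyL_iff] at h
    rw [List.nodup_cons]
    refine ⟨fun hx => h.1 ⟨x, hx, nbeq_iff.2 rfl⟩, ih h.2⟩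

/-- strictly increasing -/
def incrOK (l : List ℕ) : ℕ → Bool :=
  List.rec (fun _ => true) (fun x _ ih a => andB (Nat.blt a x) (ih x)) l

theorem incrOK_sound {l : List ℕ} {a : ℕ} (h : incrOK l a = true) :
    l.Nodup ∧ ∀ x ∈ l, a < x := by
  induction l generalizing a with
  | nil => simp
  | cons x l ih =>
    have he : incrOK (x :: l) a = andB (Nat.blt a x) (incrOK l x) := rfl
    rw [he, andB_iff, nblt_iff] at h
    obtain ⟨h1, h2⟩ := ih h.2
    refine ⟨?_, ?_⟩
    · rw [List.nodup_cons]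
      exact ⟨fun hx => lt_irrefl x (h2 x hx), h1⟩
    · intro y hy
      rcases List.mem_cons.1 hy with h3 | h3
      · rw [h3]; exact h.1
      · exact h.1.trans (h2 y h3)

/-- adjacency of cells -/
def adj (S : Fam n) (a b : Finset (Fin n)) : Prop := a ∈ S ∧ b ∈ S ∧ (a ⊆ b ∨ b ⊆ a)

theorem rtg_symm {S : Fam n} {a b : Finset (Fin n)} (h : Relation.ReflTransGen (adj S) a b) :
    Relation.ReflTransGen (adj S) b a := by
  induction h with
  | refl => exact Relation.ReflTransGen.refl
  | tail _ h2 ih => exact Relation.ReflTransGen.head ⟨h2.2.1, h2.1, h2.2.2.symm⟩ ih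

theorem connOK_sound {S : Fam n} {O : List (ℕ × ℕ)} {acc : List ℕ} {root : ℕ}
    (hO : ∀ q ∈ O, q.1 < 2 ^ n ∧ fs q.1 ∈ S) (hacc' : ∀ a ∈ acc, a < 2 ^ n)
    (hacc : ∀ a ∈ acc, fs a ∈ S ∧ Relation.ReflTransGen (adj S) (fs root) (fs a))
    (h : connOK O acc = true) :
    ∀ q ∈ O, Relation.ReflTransGen (adj S) (fs root) (fs q.1) := by
  induction O generalizing acc with
  | nil => intro q hq; simp at hq
  | cons q O ih =>
    have he : connOK (q :: O) acc = (andB (anyL (fun a => Nat.beq q.2 a) acc) <|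
      andB (orB (subB q.1 q.2) (subB q.2 q.1)) (connOK O (q.1 :: acc))) := rfl
    rw [he, andB_iff, andB_iff, anyL_iff, orB_iff] at h
    obtain ⟨⟨a, ha, hqa⟩, h2, h3⟩ := h
    rw [nbeq_iff] at hqa
    obtain ⟨hq1, hq2⟩ := hO q (by simp)
    have hp : q.2 < 2 ^ n := by rw [hqa]; exact hacc' a ha
    have hconn : Relation.ReflTransGen (adj S) (fs root) (fs q.1) := by
      refine Relation.ReflTransGen.tail (hacc a ha).2 ⟨(hacc a ha).1, hq2, ?_⟩
      rw [← hqa, fs_subset hp, fs_subset hq1]
      exact h2.symm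
    have key := ih (acc := q.1 :: acc) (fun q' hq' => hO q' (by simp [hq']))
      (fun a ha => by
        rcases List.mem_cons.1 ha with h | h
        · rw [h]; exact hq1
        · exact hacc' a h)
      (fun a ha => by
        rcases List.mem_cons.1 ha with h | h
        · rw [h]; exact ⟨hq2, hconn⟩
        · exact hacc a h) h3
    intro q' hq'
    rcases List.mem_cons.1 hq' with h | h
    · rw [h]; exact hconn
    · exact key q' h

theorem isConn_of {O : List (ℕ × ℕ)} {root : ℕ}
    (hlt : ∀ m ∈ root :: mapL Prod.fst O, m < 2 ^ n) (h : connOK O [root] = true) :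
    IsConn (toFam (root :: mapL Prod.fst O) : Fam n) := by
  set S : Fam n := toFam (root :: mapL Prod.fst O) with hS
  have hroot : fs root ∈ S := by rw [hS, toFam_cons]; exact Finset.mem_insert_self _ _
  have h1 := connOK_sound (S := S) (O := O) (acc := [root]) (root := root)
    (fun q hq => by
      have : q.1 ∈ mapL Prod.fst O := by rw [mapL_eq]; exact List.mem_map_of_mem hq
      refine ⟨hlt _ (by simp [this]), ?_⟩
      rw [hS]; exact mem_toFam.2 ⟨q.1, by simp [this], rfl⟩)
    (fun a ha => by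
      rcases List.mem_singleton.1 ha with rfl
      exact hlt _ (by simp))
    (fun a ha => by
      rcases List.mem_singleton.1 ha with rfl
      exact ⟨hroot, Relation.ReflTransGen.refl⟩) h
  have h2 : ∀ s ∈ S, Relation.ReflTransGen (adj S) (fs root) s := by
    intro s hs
    rw [hS] at hs
    obtain ⟨m, hm, rfl⟩ := mem_toFam.1 hs
    rcases List.mem_cons.1 hm with h | h
    · rw [h]
    · rw [mapL_eq] at h
      obtain ⟨q, hq, rfl⟩ := List.mem_map.1 h
      exact h1 q hq
  refine ⟨⟨_, hroot⟩, fun s hs t ht => ?_⟩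
  exact (rtg_symm (h2 s hs)).trans (h2 t ht)

/-! ### Graphs -/

/-- equality of lists -/
def eqL (l : List ℕ) : List ℕ → Bool :=
  List.rec (fun l' => List.rec true (fun _ _ _ => false) l')
    (fun x _ ih l' => List.rec false (fun y t _ => andB (Nat.beq x y) (ih t)) l') l

theorem eqL_sound {l l' : List ℕ} (h : eqL l l' = true) : l = l' := by
  induction l generalizing l' with
  | nil =>
    cases l' with
    | nil => rfl
    | cons y t => simp [eqL] at h
  | cons x l ih =>
    cases l' with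
    | nil => simp [eqL] at h
    | cons y t =>
      have he : eqL (x :: l) (y :: t) = andB (Nat.beq x y) (eqL l t) := rfl
      rw [he, andB_iff, nbeq_iff] at h
      rw [h.1, ih h.2]

/-- `G` is the list `root, O…`, and is a connected graph of rank `r` -/
def graphOK (n b r root : ℕ) (O : List (ℕ × ℕ)) (G : List ℕ) : Bool :=
  andB (eqL G (root :: mapL Prod.fst O)) <|
  andB (nodupOK G) <|
  andB (connOK O [root]) <|
  andB (allL (fun m => orB (Nat.beq (pc n m) b) (Nat.beq (pc n m) (Nat.succ b))) G) <|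
  Nat.beq (Nat.succ (lenL (filL (fun m => Nat.beq (pc n m) (Nat.succ b)) G)))
    (Nat.add (lenL (filL (fun m => Nat.beq (pc n m) b) G)) r)

theorem filter_card {G : List ℕ} (hlt : ∀ m ∈ G, m < 2 ^ n) (hG : G.Nodup) (c : ℕ) :
    ((toFam G : Fam n).filter fun s => s.card = c).card =
      lenL (filL (fun m => Nat.beq (pc n m) c) G) := by
  have h1 : ((toFam G : Fam n).filter fun s => s.card = c) =
      toFam (filL (fun m => Nat.beq (pc n m) c) G) := by
    ext s
    rw [Finset.mem_filter, mem_toFam, mem_toFam]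
    constructor
    · rintro ⟨⟨m, hm, rfl⟩, hc⟩
      rw [card_fs] at hc
      exact ⟨m, mem_filL.2 ⟨hm, nbeq_iff.2 hc⟩, rfl⟩
    · rintro ⟨m, hm, rfl⟩
      rw [mem_filL, nbeq_iff] at hm
      exact ⟨⟨m, hm.1, rfl⟩, by rw [card_fs, hm.2]⟩
  rw [h1, lenL_eq, card_toFam]
  · intro m hm
    exact hlt m (mem_filL.1 hm).1
  · rw [filL_eq]
    exact hG.filter _

theorem graphOK_sound {b r root : ℕ} {O : List (ℕ × ℕ)} {G : List ℕ}
    (hlt : ∀ m ∈ G, m < 2 ^ n) (h : graphOK n b r root O G = true) :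
    G.Nodup ∧ IsGraph b r (toFam G : Fam n) := by
  unfold graphOK at h
  rw [andB_iff, andB_iff, andB_iff, andB_iff, allL_iff, nbeq_iff] at h
  obtain ⟨h1, h2, h3, h4, h5⟩ := h
  have hG := nodupOK_sound h2
  have hE := eqL_sound h1
  refine ⟨hG, ?_, ?_, ?_⟩
  · intro s hs
    obtain ⟨m, hm, rfl⟩ := mem_toFam.1 hs
    have := h4 m hm
    rw [orB_iff, nbeq_iff, nbeq_iff] at this
    rw [card_fs]
    exact this
  · rw [hE]
    exact isConn_of (by rw [← hE]; exact hlt) h3
  · rw [filter_card hlt hG, filter_card hlt hG]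
    exact h5

/-- Main certificate for a collapse onto a connected graph. -/
noncomputable def collapseOK (n b r root : ℕ) (O : List (ℕ × ℕ)) (vs S : List ℕ) (t : BT ℕ) :
    Bool :=
  andB (chkList S t) (colOK n (graphOK n b r root O) vs S)

theorem collapseOK_sound {b r root : ℕ} {O : List (ℕ × ℕ)} {vs S : List ℕ} {t : BT ℕ}
    (ht : ∀ k ∈ btKeys t, k < 2 ^ n) (h : collapseOK n b r root O vs S t = true) :
    Relation.ReflTransGen CollapseStep (toFam (btKeys t) : Fam n)
      (toFam (root :: mapL Prod.fst O)) ∧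
      IsGraph b r (toFam (root :: mapL Prod.fst O) : Fam n) := by
  unfold collapseOK at h
  rw [andB_iff] at h
  obtain ⟨h1, h2⟩ := h
  obtain ⟨G, hG1, hG2, hG3, hG4⟩ := colOK_sound (chkList_lt ht h1) h2
  obtain ⟨h3, h4⟩ := graphOK_sound hG2 hG1
  have hE : G = root :: mapL Prod.fst O := by
    unfold graphOK at hG1
    rw [andB_iff] at hG1
    exact eqL_sound hG1.1
  rw [← chkList_sound ht h1 (hG3 h3), ← hE]
  exact ⟨hG4, h4⟩

/-! ### The central surface -/

/-- connectivity and Euler characteristic `2 - 2 g` of the central surface -/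
noncomputable def surfOK (n g root : ℕ) (O : List (ℕ × ℕ)) (t : BT ℕ) : Bool :=
  andB (chkList (root :: mapL Prod.fst O) t) <|
  andB (nodupOK (root :: mapL Prod.fst O)) <|
  andB (connOK O [root]) <|
  andB (allL (fun m => orB (Nat.beq (pc n m) 3) (orB (Nat.beq (pc n m) 4) (Nat.beq (pc n m) 5)))
    (root :: mapL Prod.fst O)) <|
  Nat.beq (Nat.add (Nat.add (lenL (filL (fun m => Nat.beq (pc n m) 3) (root :: mapL Prod.fst O)))
    (lenL (filL (fun m => Nat.beq (pc n m) 5) (root :: mapL Prod.fst O)))) (Nat.mul 2 g))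
    (Nat.add 2 (lenL (filL (fun m => Nat.beq (pc n m) 4) (root :: mapL Prod.fst O))))

theorem euler_sum {S : Fam n} (h : ∀ s ∈ S, s.card = 3 ∨ s.card = 4 ∨ s.card = 5) :
    ∑ s ∈ S, (-1 : ℤ) ^ (s.card - 3) =
      (S.filter fun s => s.card = 3).card + (S.filter fun s => s.card = 5).card -
        (S.filter fun s => s.card = 4).card := by
  have h1 : ∀ s ∈ S, (-1 : ℤ) ^ (s.card - 3) = (if s.card = 3 then 1 else 0) +
      (if s.card = 5 then 1 else 0) - (if s.card = 4 then 1 else 0) := by
    intro s hs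
    rcases h s hs with h | h | h <;> simp [h]
  rw [Finset.sum_congr rfl h1, Finset.sum_sub_distrib, Finset.sum_add_distrib]
  simp

theorem surfOK_sound {g root : ℕ} {O : List (ℕ × ℕ)} {t : BT ℕ}
    (ht : ∀ k ∈ btKeys t, k < 2 ^ n) (h : surfOK n g root O t = true) :
    IsConn (toFam (btKeys t) : Fam n) ∧
      ∑ s ∈ (toFam (btKeys t) : Fam n), (-1 : ℤ) ^ (s.card - 3) = 2 - 2 * g := by
  unfold surfOK at h
  rw [andB_iff, andB_iff, andB_iff, andB_iff, allL_iff, nbeq_iff] at h
  obtain ⟨h1, h2, h3, h4, h5⟩ := h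
  have hnd := nodupOK_sound h2
  have hlt := chkList_lt ht h1
  rw [← chkList_sound ht h1 hnd]
  refine ⟨isConn_of hlt h3, ?_⟩
  rw [euler_sum, filter_card hlt hnd, filter_card hlt hnd, filter_card hlt hnd]
  · have h6 : ((lenL (filL (fun m => Nat.beq (pc n m) 3) (root :: mapL Prod.fst O)) +
        lenL (filL (fun m => Nat.beq (pc n m) 5) (root :: mapL Prod.fst O)) + 2 * g : ℕ) : ℤ) =
        ((2 + lenL (filL (fun m => Nat.beq (pc n m) 4) (root :: mapL Prod.fst O)) : ℕ) : ℤ) := by
      exact_mod_cast h5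
    push_cast at h6
    linarith
  · intro s hs
    obtain ⟨m, hm, rfl⟩ := mem_toFam.1 hs
    have := h4 m hm
    rw [orB_iff, orB_iff, nbeq_iff, nbeq_iff, nbeq_iff] at this
    rw [card_fs]
    exact this

/-! ### Links -/

/-- the link of `v` -/
def linkL (v : ℕ) (l : List ℕ) : List ℕ :=
  mapL (fun m => Nat.xor m (Nat.pow 2 v)) (filL (fun m => tb m v) l)

theorem linkL_eq (v : Fin n) (l : List ℕ) :
    (toFam (linkL v l) : Fam n) = link (toFam l) v := by
  ext s
  rw [mem_toFam, link, Finset.mem_image]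
  unfold linkL
  rw [mapL_eq]
  constructor
  · rintro ⟨m, hm, rfl⟩
    obtain ⟨k, hk, rfl⟩ := List.mem_map.1 hm
    rw [mem_filL, tb_eq] at hk
    refine ⟨fs k, ?_, (fs_xor_erase hk.2).symm⟩
    rw [Finset.mem_filter, mem_toFam, mem_fs]
    exact ⟨⟨k, hk.1, rfl⟩, hk.2⟩
  · rintro ⟨F, hF, rfl⟩
    rw [Finset.mem_filter, mem_toFam] at hF
    obtain ⟨⟨k, hk, rfl⟩, hv⟩ := hF
    rw [mem_fs] at hv
    refine ⟨Nat.xor k (Nat.pow 2 v), ?_, fs_xor_erase hv⟩
    exact List.mem_map.2 ⟨k, mem_filL.2 ⟨hk, by rw [tb_eq]; exact hv⟩, rfl⟩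

/-- the link of `v` is a PL sphere -/
noncomputable def linkOK (n d v : ℕ) (D : List ℕ) (mv : List (List ℕ × List ℕ))
    (fT : BT (ℕ × List ℕ)) : Bool :=
  runFlips n (d + 2) D mv (linkL v (btKeys fT))

theorem linkOK_sound {d : ℕ} {v : Fin n} {D : List ℕ} {mv : List (List ℕ × List ℕ)}
    {fT : BT (ℕ × List ℕ)} (h : linkOK n d v D mv fT = true) :
    IsPLSphere d (link (toFam (btKeys fT) : Fam n) v) := by
  rw [← linkL_eq]
  exact runFlips_sound h

/-! ### Connectivity of the complex -/

/-- each new vertex is joined by an edge to a previous one -/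
def vconnOK (n : ℕ) (l : List ℕ) (O : List (ℕ × ℕ)) : List ℕ → Bool :=
  List.rec (fun acc => allN (fun v => anyL (fun a => Nat.beq v a) acc) n) (fun q _ ih acc =>
    andB (anyL (fun a => Nat.beq q.2 a) acc) <|
    andB (anyL (fun F => andB (tb F q.1) (tb F q.2)) l) (ih (q.1 :: acc))) O

theorem vconnOK_sound {l : List ℕ} {O : List (ℕ × ℕ)} {acc : List ℕ} {r : Fin n}
    (hacc : ∀ a ∈ acc, ∀ ha : a < n, Relation.ReflTransGen (adj (faces (toFam l : Fam n)))
      {r} {(⟨a, ha⟩ : Fin n)}) (hlt : ∀ a ∈ acc, a < n) (hO : ∀ q ∈ O, q.1 < n)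
    (h : vconnOK n l O acc = true) :
    ∀ v : Fin n, Relation.ReflTransGen (adj (faces (toFam l : Fam n))) {r} {v} := by
  induction O generalizing acc with
  | nil =>
    intro v
    have he : allN (fun v => anyL (fun a => Nat.beq v a) acc) n = true := h
    have h1 := allN_sound he v v.2
    rw [anyL_iff] at h1
    obtain ⟨a, ha, hva⟩ := h1
    rw [nbeq_iff] at hva
    have h2 := hacc a ha (hlt a ha)
    have h3 : (⟨a, hlt a ha⟩ : Fin n) = v := Fin.ext hva.symm
    rw [h3] at h2
    exact h2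
  | cons q O ih =>
    have he : vconnOK n l (q :: O) acc = (andB (anyL (fun a => Nat.beq q.2 a) acc) <|
      andB (anyL (fun F => andB (tb F q.1) (tb F q.2)) l) (vconnOK n l O (q.1 :: acc))) := rfl
    rw [he, andB_iff, andB_iff, anyL_iff, anyL_iff] at h
    obtain ⟨⟨a, ha, hqa⟩, ⟨F, hF, hFq⟩, h3⟩ := h
    rw [nbeq_iff] at hqa
    rw [andB_iff, tb_eq, tb_eq] at hFq
    have hq1 := hO q (by simp)
    have hq2 : q.2 < n := by rw [hqa]; exact hlt a ha
    have hpar := hacc q.2 (by rw [hqa]; exact ha) hq2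
    have hface : ∀ s : Finset (Fin n), s.Nonempty → s ⊆ fs F → s ∈ faces (toFam l : Fam n) := by
      intro s hs hsF
      rw [faces, Finset.mem_filter]
      exact ⟨Finset.mem_univ _, hs, fs F, mem_toFam.2 ⟨F, hF, rfl⟩, hsF⟩
    have hm1 : (⟨q.1, hq1⟩ : Fin n) ∈ (fs F : Finset (Fin n)) := mem_fs.2 hFq.1
    have hm2 : (⟨q.2, hq2⟩ : Fin n) ∈ (fs F : Finset (Fin n)) := mem_fs.2 hFq.2
    have hnew : Relation.ReflTransGen (adj (faces (toFam l : Fam n))) {r} {(⟨q.1, hq1⟩ : Fin n)} := by
      refine Relation.ReflTransGen.tail (Relation.ReflTransGen.tail hpar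
        (?_ : adj _ _ {(⟨q.2, hq2⟩ : Fin n), ⟨q.1, hq1⟩})) ?_
      · refine ⟨hface _ (by simp) (by simpa using hm2), hface _ (by simp) ?_, Or.inl (by simp)⟩
        intro x hx
        rcases Finset.mem_insert.1 hx with h | h
        · rw [h]; exact hm2
        · rw [Finset.mem_singleton.1 h]; exact hm1
      · refine ⟨hface _ (by simp) ?_, hface _ (by simp) (by simpa using hm1), Or.inr (by simp)⟩
        intro x hx
        rcases Finset.mem_insert.1 hx with h | h
        · rw [h]; exact hm2
        · rw [Finset.mem_singleton.1 h]; exact hm1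
    refine ih (acc := q.1 :: acc) ?_ ?_ (fun q' hq' => hO q' (by simp [hq'])) h3
    · intro b hb hbn
      rcases List.mem_cons.1 hb with h | h
      · subst h; exact hnew
      · exact hacc b h hbn
    · intro b hb
      rcases List.mem_cons.1 hb with h | h
      · rw [h]; exact hq1
      · exact hlt b h

/-- full connectivity check -/
def kconnOK (n root : ℕ) (l : List ℕ) (O : List (ℕ × ℕ)) : Bool :=
  andB (Nat.blt root n) <| andB (allL (fun q => Nat.blt q.1 n) O) <|
    andB (anyL (fun F => tb F root) l) (vconnOK n l O [root])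

theorem kconnOK_sound {root : ℕ} {l : List ℕ} {O : List (ℕ × ℕ)}
    (h : kconnOK n root l O = true) : IsConn (faces (toFam l : Fam n)) := by
  unfold kconnOK at h
  rw [andB_iff, andB_iff, andB_iff, nblt_iff, allL_iff, anyL_iff] at h
  obtain ⟨h1, h2, ⟨F, hF, hFr⟩, h3⟩ := h
  rw [tb_eq] at hFr
  have key := vconnOK_sound (n := n) (l := l) (O := O) (acc := [root]) (r := ⟨root, h1⟩)
    (fun a ha han => by
      rcases List.mem_singleton.1 ha with rfl
      exact Relation.ReflTransGen.refl)
    (fun a ha => by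
      rcases List.mem_singleton.1 ha with rfl
      exact h1)
    (fun q hq => nblt_iff.1 (h2 q hq)) h3
  have h4 : ∀ s ∈ faces (toFam l : Fam n),
      Relation.ReflTransGen (adj (faces (toFam l : Fam n))) {(⟨root, h1⟩ : Fin n)} s := by
    intro s hs
    have hs' := hs
    rw [faces, Finset.mem_filter] at hs
    obtain ⟨_, ⟨v, hv⟩, F', hF', hsF'⟩ := hs
    refine Relation.ReflTransGen.tail (key v) ⟨?_, hs', Or.inl (by simpa using hv)⟩
    rw [faces, Finset.mem_filter]
    exact ⟨Finset.mem_univ _, by simp, F', hF', by simpa using hsF' hv⟩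
  refine ⟨⟨{(⟨root, h1⟩ : Fin n)}, ?_⟩, fun s hs t ht => ?_⟩
  · rw [faces, Finset.mem_filter]
    refine ⟨Finset.mem_univ _, by simp, fs F, mem_toFam.2 ⟨F, hF, rfl⟩, ?_⟩
    rw [Finset.singleton_subset_iff]
    exact mem_fs.2 hFr
  · exact (rtg_symm (h4 s hs)).trans (h4 t ht)

/-! ### Cocycle -/

/-- cocycle check on each facet, given with its vertex list -/
noncomputable def cocOK (tab : ℕ → ℕ → ℕ) (fT : BT (ℕ × List ℕ)) : Bool :=
  btAll (fun k w => List.rec false (fun u0 _ _ =>
    andB (Nat.beq (msk w.2) k) (allL (fun u => allL (fun v =>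
      Nat.beq (Nat.mod (Nat.add (tab u0 u) (tab u v)) 5) (Nat.mod (tab u0 v) 5)) w.2) w.2)) w.2) fT

theorem cocOK_sound {tab : ℕ → ℕ → ℕ} {fT : BT (ℕ × List ℕ)} (h : cocOK tab fT = true) :
    IsCocycle (toFam (btKeys fT) : Fam n) (fun u v => ((tab u v : ℕ) : ZMod 5)) := by
  intro F hF u hu v hv w hw
  obtain ⟨k, hk, rfl⟩ := mem_toFam.1 hF
  obtain ⟨p, hp⟩ := btAll_sound h k hk
  obtain ⟨s, l⟩ := p
  cases l with
  | nil => simp at hp
  | cons u0 l =>
    have hp' : andB (Nat.beq (msk (u0 :: l)) k) (allL (fun u => allL (fun v =>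
      Nat.beq (Nat.mod (Nat.add (tab u0 u) (tab u v)) 5) (Nat.mod (tab u0 v) 5))
        (u0 :: l)) (u0 :: l)) = true := hp
    rw [andB_iff, nbeq_iff, allL_iff] at hp'
    obtain ⟨h1, h2⟩ := hp'
    have hmem : ∀ x : Fin n, x ∈ (fs k : Finset (Fin n)) → (x : ℕ) ∈ u0 :: l := by
      intro x hx
      rw [mem_fs, ← h1, testBit_msk] at hx
      exact hx
    have key : ∀ x ∈ u0 :: l, ∀ y ∈ u0 :: l,
        ((tab u0 x : ℕ) : ZMod 5) + ((tab x y : ℕ) : ZMod 5) = ((tab u0 y : ℕ) : ZMod 5) := by
      intro x hx y hy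
      have h3 := h2 x hx
      rw [allL_iff] at h3
      have h4 := nbeq_iff.1 (h3 y hy)
      have h5 : (tab u0 x + tab x y) % 5 = tab u0 y % 5 := h4
      have h6 := (ZMod.natCast_eq_natCast_iff' (tab u0 x + tab x y) (tab u0 y) 5).2 h5
      rw [← h6]; push_cast; ring
    have k1 := key u (hmem u hu) v (hmem v hv)
    have k2 := key v (hmem v hv) w (hmem w hw)
    have k3 := key u (hmem u hu) w (hmem w hw)
    have e1 : ((tab u v : ℕ) : ZMod 5) = (tab u0 v : ℕ) - (tab u0 u : ℕ) := by rw [← k1]; ring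
    have e2 : ((tab v w : ℕ) : ZMod 5) = (tab u0 w : ℕ) - (tab u0 v : ℕ) := by rw [← k2]; ring
    have e3 : ((tab u w : ℕ) : ZMod 5) = (tab u0 w : ℕ) - (tab u0 u : ℕ) := by rw [← k3]; ring
    simp only
    rw [e1, e2, e3]
    ring

/-! ### Orientation -/

/-- the sign of the facet with mask `k` -/
noncomputable def sgnT (fT : BT (ℕ × List ℕ)) (k : ℕ) : ℤ :=
  btGet (0 : ℤ) (fun w => Bool.rec (1 : ℤ) (-1 : ℤ) (Nat.beq w.1 2)) k fT

/-- negate if the number is odd -/
def altZ (p : ℕ) (z : ℤ) : ℤ := Bool.rec z (Int.neg z) (Nat.beq (Nat.mod p 2) 1)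

theorem altZ_eq (p : ℕ) (z : ℤ) : altZ p z = (-1) ^ p * z := by
  unfold altZ
  rcases Nat.mod_two_eq_zero_or_one p with h | h
  · have h' : Nat.mod p 2 = 0 := h
    rw [h', (Nat.even_iff.2 h).neg_one_pow]
    change z = 1 * z
    rw [one_mul]
  · have h' : Nat.mod p 2 = 1 := h
    rw [h', (Nat.odd_iff.2 h).neg_one_pow]
    change -z = -1 * z
    ring

/-- the coefficient of the ridge `r` in the boundary -/
noncomputable def ridgeSum (fT : BT (ℕ × List ℕ)) (r : ℕ) (n : ℕ) : ℤ :=
  Nat.rec (0 : ℤ) (fun v ih => Bool.rec (Bool.rec ih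
    (Int.add ih (altZ (pc v r) (sgnT fT (Nat.lor r (Nat.pow 2 v)))))
      (btMem (Nat.lor r (Nat.pow 2 v)) fT)) ih (tb r v)) n

/-- `z = 0` -/
noncomputable def isZ (z : ℤ) : Bool := Int.rec (fun a => Nat.beq a 0) (fun _ => false) z

theorem isZ_sound {z : ℤ} (h : isZ z = true) : z = 0 := by
  cases z with
  | ofNat a =>
    have : Nat.beq a 0 = true := h
    rw [nbeq_iff] at this
    rw [this]; rfl
  | negSucc a => exact absurd h (by simp [isZ])

/-- orientation check -/
noncomputable def oriOK (n : ℕ) (fT : BT (ℕ × List ℕ)) : Bool :=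
  andB (btAll (fun k _ => andB (btMem k fT) (Nat.beq (btGet 0 (fun w => Nat.div w.1 w.1) k fT) 1)) fT)
  (btAll (fun k _ => allN (fun v => Bool.rec true
    (isZ (ridgeSum fT (Nat.xor k (Nat.pow 2 v)) n)) (tb k v)) n) fT)

theorem sgnT_pm {fT : BT (ℕ × List ℕ)} {k : ℕ} (h : btMem k fT = true) :
    sgnT fT k = 1 ∨ sgnT fT k = -1 := by
  induction fT with
  | lf => simp [btMem, btGet] at h
  | nd l k' w r ihl ihr =>
    have he : btMem k (BT.nd l k' w r) =
      Bool.rec (Bool.rec (btMem k r) (btMem k l) (Nat.blt k k')) true (Nat.beq k k') := rfl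
    have he' : sgnT (BT.nd l k' w r) k =
      Bool.rec (Bool.rec (sgnT r k) (sgnT l k) (Nat.blt k k'))
        (Bool.rec (1 : ℤ) (-1 : ℤ) (Nat.beq w.1 2)) (Nat.beq k k') := rfl
    rw [he] at h
    rw [he']
    cases h1 : Nat.beq k k' with
    | true =>
      cases h3 : Nat.beq w.1 2 with
      | true => right; rfl
      | false => left; rfl
    | false =>
      rw [h1] at h
      cases h2 : Nat.blt k k' with
      | true => rw [h2] at h; exact ihl h
      | false => rw [h2] at h; exact ihr h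

theorem oriOK_sound {fT : BT (ℕ × List ℕ)} (hf : ∀ k ∈ btKeys fT, k < 2 ^ n)
    (h : oriOK n fT = true) : IsOrientable (toFam (btKeys fT) : Fam n) := by
  unfold oriOK at h
  rw [andB_iff] at h
  obtain ⟨h1, h2⟩ := h
  replace h1 := btAll_sound h1
  replace h2 := btAll_sound h2
  simp only [andB_iff] at h1
  have hmem : ∀ k ∈ btKeys fT, btMem k fT = true := fun k hk => by
    obtain ⟨_, h3, _⟩ := h1 k hk
    exact h3
  choose mk hmk1 hmk2 using fun s : Finset (Fin n) => exists_fs s
  have hmkfs : ∀ k, k < 2 ^ n → mk (fs k) = k := fun k hk =>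
    fs_inj (hmk1 _) hk (hmk2 (fs k))
  refine ⟨fun F => sgnT fT (mk F), ?_, ?_⟩
  · intro F hF
    obtain ⟨k, hk, rfl⟩ := mem_toFam.1 hF
    simp only
    rw [hmkfs k (hf k hk)]
    exact sgnT_pm (hmem k hk)
  · intro R
    obtain ⟨r, hr, rfl⟩ := exists_fs R
    have hins : ∀ v : Fin n, v ∉ (fs r : Finset (Fin n)) →
        ((insert v (fs r) : Finset (Fin n)) ∈ (toFam (btKeys fT) : Fam n) ↔
          btMem (Nat.lor r (Nat.pow 2 v)) fT = true) := by
      intro v _
      have hlt : Nat.lor r (Nat.pow 2 v) < 2 ^ n := lor_lt hr v.2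
      rw [mem_toFam]
      constructor
      · rintro ⟨k, hk, hkk⟩
        rw [← fs_or_insert] at hkk
        have := fs_inj (hf k hk) hlt hkk
        rw [← this]
        exact hmem k hk
      · intro hb
        exact ⟨_, btMem_sound hb, fs_or_insert⟩
    have hsum : ∀ m ≤ n, ridgeSum fT r m = ∑ i ∈ range m,
        (if h : i < n then (if (⟨i, h⟩ : Fin n) ∉ (fs r : Finset (Fin n)) ∧
          (insert (⟨i, h⟩ : Fin n) (fs r) : Finset (Fin n)) ∈ (toFam (btKeys fT) : Fam n) then
            (-1 : ℤ) ^ ((fs r : Finset (Fin n)).filter fun u => u < ⟨i, h⟩).card *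
              sgnT fT (mk (insert (⟨i, h⟩ : Fin n) (fs r))) else 0) else 0) := by
      intro m
      induction m with
      | zero => intro _; simp [ridgeSum]
      | succ v ih =>
        intro hv
        have hvn : v < n := hv
        rw [Finset.sum_range_succ, ← ih hvn.le]
        have he : ridgeSum fT r (v + 1) = Bool.rec (Bool.rec (ridgeSum fT r v)
          (Int.add (ridgeSum fT r v) (altZ (pc v r) (sgnT fT (Nat.lor r (Nat.pow 2 v)))))
            (btMem (Nat.lor r (Nat.pow 2 v)) fT)) (ridgeSum fT r v) (tb r v) := rfl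
        rw [he, dif_pos hvn, tb_eq]
        cases hb : r.testBit v with
        | true =>
          have : (⟨v, hvn⟩ : Fin n) ∈ (fs r : Finset (Fin n)) := mem_fs.2 hb
          simp [this]
        | false =>
          have hnot : (⟨v, hvn⟩ : Fin n) ∉ (fs r : Finset (Fin n)) := by
            rw [mem_fs]; simp [hb]
          cases hm : btMem (Nat.lor r (Nat.pow 2 v)) fT with
          | false =>
            have : ¬ (insert (⟨v, hvn⟩ : Fin n) (fs r) : Finset (Fin n)) ∈
                (toFam (btKeys fT) : Fam n) := by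
              rw [hins _ hnot]
              change ¬ btMem (Nat.lor r (Nat.pow 2 v)) fT = true
              rw [hm]; simp
            rw [if_neg (fun h => this h.2)]
            simp
          | true =>
            have : (insert (⟨v, hvn⟩ : Fin n) (fs r) : Finset (Fin n)) ∈
                (toFam (btKeys fT) : Fam n) := by
              rw [hins _ hnot]; exact hm
            rw [if_pos ⟨hnot, this⟩, card_fs_lt]
            have h5 : mk (insert (⟨v, hvn⟩ : Fin n) (fs r)) = Nat.lor r (Nat.pow 2 v) := by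
              rw [← fs_or_insert]
              exact hmkfs _ (lor_lt hr hvn)
            rw [h5]
            change ridgeSum fT r v + altZ (pc v r) (sgnT fT (Nat.lor r (Nat.pow 2 v))) = _
            rw [altZ_eq]
    rw [Finset.sum_filter]
    have hfin : (∑ v : Fin n, if v ∉ (fs r : Finset (Fin n)) ∧
        (insert v (fs r) : Finset (Fin n)) ∈ (toFam (btKeys fT) : Fam n) then
          (-1 : ℤ) ^ ((fs r : Finset (Fin n)).filter fun u => u < v).card *
            sgnT fT (mk (insert v (fs r))) else 0) = ridgeSum fT r n := by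
      rw [hsum n le_rfl, Finset.sum_range]
      apply Finset.sum_congr rfl
      intro v _
      rw [dif_pos v.2]
    simp only
    rw [hfin]
    by_cases hex : ∃ v : Fin n, v ∉ (fs r : Finset (Fin n)) ∧
        (insert v (fs r) : Finset (Fin n)) ∈ (toFam (btKeys fT) : Fam n)
    · obtain ⟨v, hv, hvK⟩ := hex
      obtain ⟨k, hk, hkk⟩ := mem_toFam.1 hvK
      obtain ⟨_, h3⟩ := h2 k hk
      have h4 := allN_sound h3 v v.2
      have hkv : k.testBit v = true := by
        rw [← mem_fs (n := n), hkk]; exact Finset.mem_insert_self _ _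
      rw [tb_eq, hkv] at h4
      have h5 : Nat.xor k (Nat.pow 2 v) = r := by
        apply fs_inj (n := n) (xor_lt (hf k hk) v.2) hr
        rw [fs_xor_erase hkv, hkk, Finset.erase_insert hv]
      rw [h5] at h4
      exact isZ_sound h4
    · rw [← hfin]
      apply Finset.sum_eq_zero
      intro v _
      rw [if_neg (fun h => hex ⟨v, h⟩)]

/-! ### Same core -/

/-- facets containing a vertex of `dm` avoid `m0` -/
noncomputable def coreOK (dm m0 : ℕ) (fT : BT (ℕ × List ℕ)) : Bool :=
  btAll (fun F _ => orB (zB F dm) (zB F m0)) fT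

theorem coreOK_sound {dm m0 : ℕ} {fT : BT (ℕ × List ℕ)} (hf : ∀ k ∈ btKeys fT, k < 2 ^ n)
    {L₁ L₂ : Fin n → Fin 3} (hd : ∀ v : Fin n, L₁ v ≠ L₂ v → dm.testBit v = true)
    (h1 : ∀ v : Fin n, L₁ v = 0 → m0.testBit v = true)
    (h2 : ∀ v : Fin n, L₂ v = 0 → m0.testBit v = true) (h : coreOK dm m0 fT = true) :
    ∀ v, L₁ v ≠ L₂ v → ∀ F ∈ (toFam (btKeys fT) : Fam n), v ∈ F →
      (∀ u ∈ F, L₁ u ≠ 0) ∧ (∀ u ∈ F, L₂ u ≠ 0) := by
  intro v hv F hF hvF
  obtain ⟨k, hk, rfl⟩ := mem_toFam.1 hF
  obtain ⟨_, h3⟩ := btAll_sound h k hk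
  rw [orB_iff, zB_iff (hf k hk), zB_iff (hf k hk)] at h3
  rcases h3 with h3 | h3
  · exact absurd (hd v hv) (h3 v hvF)
  · exact ⟨fun u hu h0 => h3 u hu (h1 u h0), fun u hu h0 => h3 u hu (h2 u h0)⟩

end Pool.Agent.TH640
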