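import Mathlib
import Pool.Agent.TH640.Defs
import Pool.Agent.TH640.Hol
import Pool.Agent.TH640.Retract
import Pool.Agent.TH640.CoverK
import Pool.Agent.TH640.Cycle

/-!
# The criterion for two trisections not to be isotopic

Helper file.
-/

open Finset Topology ContinuousMap

namespace Pool.Agent.TH640

variable {n : ℕ}

theorem collapse_subset {S S' : Fam n} (h : Relation.ReflTransGen CollapseStep S S') :
    S' ⊆ S := by
  induction h with
  | refl => exact Finset.Subset.refl _
  | tail _ h2 ih =>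
    obtain ⟨t, v, _, _, _, _, rfl⟩ := h2
    exact ((Finset.erase_subset _ _).trans (Finset.erase_subset _ _)).trans ih

theorem realize_mono {S S' : Fam n} (h : S' ⊆ S) : realize S' ⊆ realize S :=
  fun _ hx => ⟨hx.1, hx.2.1, h hx.2.2⟩

theorem circLike_sector {K : Fam n} {hh : Fin n → Fin n → ZMod 5} (hco : IsCocycle K hh)
    {L : Fin n → Fin 3} {i : Fin 3} {C : Fam n} {l : ℕ} {v : ℤ → Fin n}
    (hcol : Relation.ReflTransGen CollapseStep (cells K L {i}) C) (h : IsCycle C l v)
    {c : ℤ → ZMod 5} {a : ZMod 5}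
    (hc : ∀ k, c (k + 1) = c k + hh (v k) (v (k + 1))) (hper : ∀ k, c (k + l) = c k + a) :
    CircLike (covP K hh) (covT K hh) (sector K L i) a := by
  have hCK : C ⊆ faces K := (collapse_subset hcol).trans (Finset.filter_subset _ _)
  exact circLike_of ((dr_sector K L i).trans (dr_collapses (isComplex_mono K L i) hcol).1)
    (circHomeo h) (realize_mono hCK) (hol_circ hco h hCK hc hper (realize_mono hCK))

theorem not_isotopic {K : Fam n} {hh : Fin n → Fin n → ZMod 5} (hco : IsCocycle K hh)
    {L₁ L₂ : Fin n → Fin 3} {a₁ a₂ : Fin 3 → ZMod 5}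
    (h1 : ∀ i, CircLike (covP K hh) (covT K hh) (sector K L₁ i) (a₁ i))
    (h2 : ∀ i, CircLike (covP K hh) (covT K hh) (sector K L₂ i) (a₂ i))
    (hperm : ∀ σ : Equiv.Perm (Fin 3), ∃ i, a₁ i ≠ a₂ (σ i) ∧ a₁ i ≠ -a₂ (σ i))
    (X : Type) [TopologicalSpace X] (e : Body K ≃ₜ X) (φ : X ≃ₜ X)
    (hφ : (φ : C(X, X)).Homotopic (ContinuousMap.id X)) (σ : Equiv.Perm (Fin 3)) :
    ¬ ∀ i, φ '' (e '' sector K L₁ i) = e '' sector K L₂ (σ i) := by
  intro hall
  obtain ⟨i, hi1, hi2⟩ := hperm σ
  let ψ : Body K ≃ₜ Body K := (e.trans φ).trans e.symm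
  have hψ : (ψ : C(Body K, Body K)).Homotopic (ContinuousMap.id _) := by
    have e1 : (ψ : C(Body K, Body K)) =
        (e.symm : C(X, Body K)).comp ((φ : C(X, X)).comp (e : C(Body K, X))) := by
      ext x; rfl
    rw [e1]
    have e2 := (ContinuousMap.Homotopic.refl (e.symm : C(X, Body K))).comp
      (hφ.comp (ContinuousMap.Homotopic.refl (e : C(Body K, X))))
    have e3 : (e.symm : C(X, Body K)).comp ((ContinuousMap.id X).comp (e : C(Body K, X))) =
        ContinuousMap.id _ := by
      ext1 x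
      exact e.symm_apply_apply x
    rw [e3] at e2
    exact e2
  have him : ψ '' sector K L₁ i = sector K L₂ (σ i) := by
    have h3 : ψ '' sector K L₁ i = e.symm '' (φ '' (e '' sector K L₁ i)) := by
      rw [Set.image_image, Set.image_image]
      rfl
    rw [h3, hall i]
    rw [Set.image_image]
    simp
  rcases circLike_homeo (pcov_K hco) (h1 i) (h2 (σ i)) ψ hψ him with h | h
  · exact hi1 h
  · exact hi2 h

/-- The two labellings have the same core if they differ only at vertices whose neighbours avoid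
one of the labels. -/
theorem core_eq {K : Fam n} {L₁ L₂ : Fin n → Fin 3}
    (h : ∀ v, L₁ v ≠ L₂ v → ∀ F ∈ K, v ∈ F → (∀ u ∈ F, L₁ u ≠ 0) ∧ (∀ u ∈ F, L₂ u ≠ 0)) :
    core K L₁ = core K L₂ := by
  have key : ∀ (L L' : Fin n → Fin 3),
      (∀ v, L v ≠ L' v → ∀ F ∈ K, v ∈ F → (∀ u ∈ F, L u ≠ 0) ∧ (∀ u ∈ F, L' u ≠ 0)) →
      core K L ⊆ core K L' := by
    intro L L' hLL x hx
    obtain ⟨h0, h1, F, hF, hz⟩ := mem_realize_faces.1 x.2
    have hzero : ∀ v, L v ≠ L' v → x.1 v = 0 := by
      intro v hv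
      by_contra hv0
      have hvF : v ∈ F := by
        by_contra hvF
        exact hv0 (hz v hvF)
      have hn := (hLL v hv F hF hvF).1
      have hw0 : weight L x.1 0 = 0 := by
        unfold weight
        apply Finset.sum_eq_zero
        intro u _
        by_cases hu : L u = 0
        · rw [if_pos hu]
          exact hz u (fun huF => hn u huF hu)
        · rw [if_neg hu]
      have hs := weight_sum L x.1
      rw [h1, Fin.sum_univ_three, hx 1 0, hx 2 0, hw0] at hs
      norm_num at hs
    have hw : ∀ i, weight L x.1 i = weight L' x.1 i := by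
      intro i
      unfold weight
      apply Finset.sum_congr rfl
      intro u _
      by_cases hu : L u = L' u
      · rw [hu]
      · rw [hzero u hu]; simp
    intro i j
    rw [← hw, ← hw]
    exact hx i j
  apply Set.Subset.antisymm
  · exact key L₁ L₂ h
  · exact key L₂ L₁ fun v hv F hF hvF => (h v hv.symm F hF hvF).symm

end Pool.Agent.TH640
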