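import Mathlib
import Pool.Agent.TH640.Defs
import Pool.Agent.TH640.NotIso

/-!
# Triangles as polygons

Helper file.
-/

open Finset

namespace Pool.Agent.TH640

variable {n : ℕ}

theorem exists_prim (g : ℤ → ZMod 5) : ∃ c : ℤ → ZMod 5, ∀ k, c (k + 1) = c k + g k := by
  refine ⟨fun k => ∑ i ∈ Finset.range k.toNat, g i -
    ∑ i ∈ Finset.range (-k).toNat, g (-(i : ℤ) - 1), fun k => ?_⟩
  rcases le_or_gt 0 k with hk | hk
  · obtain ⟨m, rfl⟩ := Int.eq_ofNat_of_zero_le hk
    have h1 : ((m : ℤ) + 1).toNat = m + 1 := by omega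
    have h2 : (-((m : ℤ) + 1)).toNat = 0 := by omega
    have h3 : ((m : ℤ)).toNat = m := by omega
    have h4 : (-(m : ℤ)).toNat = 0 := by omega
    simp only [h1, h2, h3, h4, Finset.sum_range_succ]
    simp
  · obtain ⟨m, hm⟩ : ∃ m : ℕ, k = -((m : ℤ) + 1) := ⟨(-k - 1).toNat, by omega⟩
    subst hm
    have h1 : (-((m : ℤ) + 1) + 1).toNat = 0 := by omega
    have h2 : (-(-((m : ℤ) + 1) + 1)).toNat = m := by omega
    have h3 : (-((m : ℤ) + 1)).toNat = 0 := by omega
    have h4 : (-(-((m : ℤ) + 1))).toNat = m + 1 := by omega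
    simp only [h1, h2, h3, h4, Finset.sum_range_succ]
    have h5 : -((m : ℤ) + 1) = -(m : ℤ) - 1 := by ring
    rw [h5]
    simp

theorem prim_period {g c : ℤ → ZMod 5} (hc : ∀ k, c (k + 1) = c k + g k)
    (hg : ∀ k, g (k + 3) = g k) (k : ℤ) : c (k + 3) = c k + (g 0 + g 1 + g 2) := by
  have hstep : ∀ k, c (k + 1 + 3) - c (k + 1) = c (k + 3) - c k := by
    intro k
    have h1 : k + 1 + 3 = (k + 3) + 1 := by ring
    rw [h1, hc, hc, hg]
    ring
  have h0 : c (0 + 3) - c 0 = g 0 + g 1 + g 2 := by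
    have h1 : (0 : ℤ) + 3 = (0 + 1 + 1) + 1 := by norm_num
    rw [h1, hc, hc, hc]
    have h2 : (0 : ℤ) + 1 + 1 = 2 := by norm_num
    have h3 : (0 : ℤ) + 1 = 1 := by norm_num
    rw [h2, h3]
    ring
  have key : c (k + 3) - c k = g 0 + g 1 + g 2 := by
    induction k using Int.induction_on with
    | zero => exact h0
    | succ i ih => rw [hstep, ih]
    | pred i ih =>
      have := hstep (-(i : ℤ) - 1)
      rw [sub_add_cancel] at this
      rw [← this, ih]
  rw [← key]
  ring

/-- the vertices of a triangle, repeated periodically -/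
def tri (a b c : Fin n) (k : ℤ) : Fin n := if k % 3 = 0 then a else if k % 3 = 1 then b else c

theorem tri_cases (a b c : Fin n) (k : ℤ) :
    (k % 3 = 0 ∧ tri a b c k = a ∧ tri a b c (k + 1) = b) ∨
    (k % 3 = 1 ∧ tri a b c k = b ∧ tri a b c (k + 1) = c) ∨
    (k % 3 = 2 ∧ tri a b c k = c ∧ tri a b c (k + 1) = a) := by
  have h : k % 3 = 0 ∨ k % 3 = 1 ∨ k % 3 = 2 := by omega
  rcases h with h | h | h
  · left
    have h1 : (k + 1) % 3 = 1 := by omega
    exact ⟨h, by simp [tri, h], by simp [tri, h1]⟩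
  · right; left
    have h1 : (k + 1) % 3 = 2 := by omega
    exact ⟨h, by simp [tri, h], by simp [tri, h1]⟩
  · right; right
    have h1 : (k + 1) % 3 = 0 := by omega
    exact ⟨h, by simp [tri, h], by simp [tri, h1]⟩

theorem isCycle_tri {C : Fam n} {a b c : Fin n} (hab : a ≠ b) (hbc : b ≠ c) (hca : c ≠ a)
    (hC : C = {{a}, {b}, {c}, {a, b}, {b, c}, {c, a}}) : IsCycle C 3 (tri a b c) where
  three := le_rfl
  inj := by
    intro i j
    push_cast
    rcases tri_cases a b c i with ⟨hi, h1, _⟩ | ⟨hi, h1, _⟩ | ⟨hi, h1, _⟩ <;>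
    rcases tri_cases a b c j with ⟨hj, h2, _⟩ | ⟨hj, h2, _⟩ | ⟨hj, h2, _⟩ <;>
    rw [h1, h2]
    · exact ⟨fun _ => by omega, fun _ => rfl⟩
    · exact ⟨fun h => absurd h hab, fun _ => by omega⟩
    · exact ⟨fun h => absurd h.symm hca, fun _ => by omega⟩
    · exact ⟨fun h => absurd h.symm hab, fun _ => by omega⟩
    · exact ⟨fun _ => by omega, fun _ => rfl⟩
    · exact ⟨fun h => absurd h hbc, fun _ => by omega⟩
    · exact ⟨fun h => absurd h hca, fun _ => by omega⟩
    · exact ⟨fun h => absurd h.symm hbc, fun _ => by omega⟩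
    · exact ⟨fun _ => by omega, fun _ => rfl⟩
  mem := by
    intro s
    rw [hC]
    simp only [Finset.mem_insert, Finset.mem_singleton]
    have e0 : tri a b c 0 = a := by simp [tri]
    have e1 : tri a b c 1 = b := by simp [tri]
    have e2 : tri a b c 2 = c := by simp [tri]
    have e3 : tri a b c 3 = a := by simp [tri]
    constructor
    · rintro (h | h | h | h | h | h)
      · exact ⟨0, Or.inl (by rw [h, e0])⟩
      · exact ⟨1, Or.inl (by rw [h, e1])⟩
      · exact ⟨2, Or.inl (by rw [h, e2])⟩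
      · exact ⟨0, Or.inr (by rw [h, e0]; norm_num; rw [e1])⟩
      · exact ⟨1, Or.inr (by rw [h, e1]; norm_num; rw [e2])⟩
      · exact ⟨2, Or.inr (by rw [h, e2]; norm_num; rw [e3])⟩
    · rintro ⟨k, h⟩
      rcases tri_cases a b c k with ⟨_, h1, h2⟩ | ⟨_, h1, h2⟩ | ⟨_, h1, h2⟩ <;>
      rw [h1, h2] at h <;> rcases h with h | h <;> simp [h]

/-- A sector whose spine collapses to a triangle is a circle with the holonomy of the triangle. -/
theorem circLike_tri {K : Fam n} {hh : Fin n → Fin n → ZMod 5} (hco : IsCocycle K hh)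
    {L : Fin n → Fin 3} {i : Fin 3} {C : Fam n} {a b c : Fin n}
    (hcol : Relation.ReflTransGen CollapseStep (cells K L {i}) C)
    (hab : a ≠ b) (hbc : b ≠ c) (hca : c ≠ a)
    (hC : C = {{a}, {b}, {c}, {a, b}, {b, c}, {c, a}}) :
    CircLike (covP K hh) (covT K hh) (sector K L i) (hh a b + hh b c + hh c a) := by
  let g : ℤ → ZMod 5 := fun k => hh (tri a b c k) (tri a b c (k + 1))
  obtain ⟨d, hd⟩ := exists_prim g
  have hper : ∀ k, tri a b c (k + 3) = tri a b c k := by
    intro k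
    unfold tri
    have : (k + 3) % 3 = k % 3 := by omega
    rw [this]
  have hg : ∀ k, g (k + 3) = g k := by
    intro k
    simp only [g]
    have h1 : k + 3 + 1 = (k + 1) + 3 := by ring
    rw [h1, hper, hper]
  have hp := prim_period hd hg
  have hs : g 0 + g 1 + g 2 = hh a b + hh b c + hh c a := by
    have e0 : tri a b c 0 = a := by simp [tri]
    have e1 : tri a b c 1 = b := by simp [tri]
    have e2 : tri a b c 2 = c := by simp [tri]
    have e3 : tri a b c 3 = a := by simp [tri]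
    simp only [g]
    norm_num
    rw [e0, e1, e2, e3]
  rw [← hs]
  exact circLike_sector hco hcol (isCycle_tri hab hbc hca hC) hd (by exact_mod_cast hp)

end Pool.Agent.TH640
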