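import Mathlib
import Pool.Agent.TH640.Defs
import Pool.Agent.TH640.Cells
import Pool.Agent.TH640.NotIso
import Pool.Agent.TH640.Tri3
import Pool.Agent.TH640.Data.Fac
import Pool.Agent.TH640.Data.Ok
import Pool.Agent.TH640.Data.Ori
import Pool.Agent.TH640.Data.Lk0
import Pool.Agent.TH640.Data.Lk1
import Pool.Agent.TH640.Data.Lk2
import Pool.Agent.TH640.Data.Lk3
import Pool.Agent.TH640.Data.Lk4
import Pool.Agent.TH640.Data.C012
import Pool.Agent.TH640.Data.C0
import Pool.Agent.TH640.Data.C01
import Pool.Agent.TH640.Data.C02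
import Pool.Agent.TH640.Data.C1a
import Pool.Agent.TH640.Data.C2a
import Pool.Agent.TH640.Data.C12a
import Pool.Agent.TH640.Data.C1b
import Pool.Agent.TH640.Data.C2b
import Pool.Agent.TH640.Data.C12b

/-!
# Assembling the certificates

Helper file.
-/

open Finset

namespace Pool.Agent.TH640.Data

open Pool.Agent.TH640

/-- the complex: 25 vertices -/
noncomputable def KK : Fam 25 := toFam (btKeys facT)

/-- first labelling -/
def LA (i : Fin 25) : Fin 3 :=
  if Nat.testBit 4268032 i then 0 else if Nat.testBit 12206599 i then 1 else 2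

/-- second labelling -/
def LB (i : Fin 25) : Fin 3 :=
  if Nat.testBit 4268032 i then 0 else if Nat.testBit 12206343 i then 1 else 2

theorem K_lt : ∀ k ∈ btKeys facT, k < 2 ^ 25 := (facOK_sound fac_ok).1

theorem K_card : ∀ F ∈ KK, F.card = 5 := (facOK_sound fac_ok).2

theorem K_manifold : IsClosedManifold 3 KK := by
  refine ⟨K_card, fun v _ => ?_⟩
  fin_cases v
  · exact linkOK_sound (n := 25) (v := 0) lk0
  · exact linkOK_sound (n := 25) (v := 1) lk1
  · exact linkOK_sound (n := 25) (v := 2) lk2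
  · exact linkOK_sound (n := 25) (v := 3) lk3
  · exact linkOK_sound (n := 25) (v := 4) lk4
  · exact linkOK_sound (n := 25) (v := 5) lk5
  · exact linkOK_sound (n := 25) (v := 6) lk6
  · exact linkOK_sound (n := 25) (v := 7) lk7
  · exact linkOK_sound (n := 25) (v := 8) lk8
  · exact linkOK_sound (n := 25) (v := 9) lk9
  · exact linkOK_sound (n := 25) (v := 10) lk10
  · exact linkOK_sound (n := 25) (v := 11) lk11
  · exact linkOK_sound (n := 25) (v := 12) lk12
  · exact linkOK_sound (n := 25) (v := 13) lk13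
  · exact linkOK_sound (n := 25) (v := 14) lk14
  · exact linkOK_sound (n := 25) (v := 15) lk15
  · exact linkOK_sound (n := 25) (v := 16) lk16
  · exact linkOK_sound (n := 25) (v := 17) lk17
  · exact linkOK_sound (n := 25) (v := 18) lk18
  · exact linkOK_sound (n := 25) (v := 19) lk19
  · exact linkOK_sound (n := 25) (v := 20) lk20
  · exact linkOK_sound (n := 25) (v := 21) lk21
  · exact linkOK_sound (n := 25) (v := 22) lk22
  · exact linkOK_sound (n := 25) (v := 23) lk23
  · exact linkOK_sound (n := 25) (v := 24) lk24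

theorem K_conn : IsConn (faces KK) := kconnOK_sound kconn_ok

theorem K_ori : IsOrientable KK := oriOK_sound K_lt ori_ok

theorem K_coc : IsCocycle KK (fun u v => ((tab u v : ℕ) : ZMod 5)) := cocOK_sound coc_ok

theorem K_core : core KK LA = core KK LB :=
  core_eq (coreOK_sound K_lt (dm := 768) (m0 := 4268032) (by decide +kernel) (by decide +kernel)
    (by decide +kernel) core_ok)

theorem lab0a : LabSpec LA ({0} : Finset (Fin 3)) ⟨4268032, 12206599, 17079800, true, false, false⟩ where
  h0 := by decide +kernel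
  h1 := by decide +kernel
  h2 := by decide +kernel
  k0 := by decide
  k1 := by decide
  k2 := by decide

theorem ce0a : (∀ k ∈ btKeys t0, k < 2 ^ 25) ∧
    (toFam (btKeys t0) : Fam 25) = cells KK LA ({0} : Finset (Fin 3)) :=
  chkCells_sound lab0a (by decide) (MJ := 4268032) (by decide +kernel) K_lt c0

theorem co0a : Relation.ReflTransGen CollapseStep (cells KK LA ({0} : Finset (Fin 3)))
      (toFam (8192 :: mapL Prod.fst o0)) ∧
      IsGraph 1 1 (toFam (8192 :: mapL Prod.fst o0) : Fam 25) := by
  have h := collapseOK_sound ce0a.1 k0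
  rw [ce0a.2] at h
  exact h

theorem ci0a : CircLike (covP KK fun u v => ((tab u v : ℕ) : ZMod 5))
    (covT KK fun u v => ((tab u v : ℕ) : ZMod 5)) (sector KK LA 0)
    (2 : ZMod 5) := by
  have h := circLike_tri K_coc co0a.1 (a := 13) (b := 16) (c := 22) (by decide) (by decide)
    (by decide) (by decide +kernel)
  have e : (((tab (13 : Fin 25) (16 : Fin 25) : ℕ) : ZMod 5) +
      ((tab (16 : Fin 25) (22 : Fin 25) : ℕ) : ZMod 5) +
      ((tab (22 : Fin 25) (13 : Fin 25) : ℕ) : ZMod 5)) = 2 := by decide +kernel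
  rw [e] at h
  exact h

theorem lab1a : LabSpec LA ({1} : Finset (Fin 3)) ⟨4268032, 12206599, 17079800, false, true, false⟩ where
  h0 := by decide +kernel
  h1 := by decide +kernel
  h2 := by decide +kernel
  k0 := by decide
  k1 := by decide
  k2 := by decide

theorem ce1a : (∀ k ∈ btKeys t1a, k < 2 ^ 25) ∧
    (toFam (btKeys t1a) : Fam 25) = cells KK LA ({1} : Finset (Fin 3)) :=
  chkCells_sound lab1a (by decide) (MJ := 12206599) (by decide +kernel) K_lt c1a

theorem co1a : Relation.ReflTransGen CollapseStep (cells KK LA ({1} : Finset (Fin 3)))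
      (toFam (16384 :: mapL Prod.fst o1a)) ∧
      IsGraph 1 1 (toFam (16384 :: mapL Prod.fst o1a) : Fam 25) := by
  have h := collapseOK_sound ce1a.1 k1a
  rw [ce1a.2] at h
  exact h

theorem ci1a : CircLike (covP KK fun u v => ((tab u v : ℕ) : ZMod 5))
    (covT KK fun u v => ((tab u v : ℕ) : ZMod 5)) (sector KK LA 1)
    (1 : ZMod 5) := by
  have h := circLike_tri K_coc co1a.1 (a := 14) (b := 17) (c := 19) (by decide) (by decide)
    (by decide) (by decide +kernel)
  have e : (((tab (14 : Fin 25) (17 : Fin 25) : ℕ) : ZMod 5) +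
      ((tab (17 : Fin 25) (19 : Fin 25) : ℕ) : ZMod 5) +
      ((tab (19 : Fin 25) (14 : Fin 25) : ℕ) : ZMod 5)) = 1 := by decide +kernel
  rw [e] at h
  exact h

theorem lab2a : LabSpec LA ({2} : Finset (Fin 3)) ⟨4268032, 12206599, 17079800, false, false, true⟩ where
  h0 := by decide +kernel
  h1 := by decide +kernel
  h2 := by decide +kernel
  k0 := by decide
  k1 := by decide
  k2 := by decide

theorem ce2a : (∀ k ∈ btKeys t2a, k < 2 ^ 25) ∧
    (toFam (btKeys t2a) : Fam 25) = cells KK LA ({2} : Finset (Fin 3)) :=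
  chkCells_sound lab2a (by decide) (MJ := 17079800) (by decide +kernel) K_lt c2a

theorem co2a : Relation.ReflTransGen CollapseStep (cells KK LA ({2} : Finset (Fin 3)))
      (toFam (32 :: mapL Prod.fst o2a)) ∧
      IsGraph 1 1 (toFam (32 :: mapL Prod.fst o2a) : Fam 25) := by
  have h := collapseOK_sound ce2a.1 k2a
  rw [ce2a.2] at h
  exact h

theorem ci2a : CircLike (covP KK fun u v => ((tab u v : ℕ) : ZMod 5))
    (covT KK fun u v => ((tab u v : ℕ) : ZMod 5)) (sector KK LA 2)
    (2 : ZMod 5) := by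
  have h := circLike_tri K_coc co2a.1 (a := 5) (b := 11) (c := 15) (by decide) (by decide)
    (by decide) (by decide +kernel)
  have e : (((tab (5 : Fin 25) (11 : Fin 25) : ℕ) : ZMod 5) +
      ((tab (11 : Fin 25) (15 : Fin 25) : ℕ) : ZMod 5) +
      ((tab (15 : Fin 25) (5 : Fin 25) : ℕ) : ZMod 5)) = 2 := by decide +kernel
  rw [e] at h
  exact h

theorem lab01a : LabSpec LA ({0, 1} : Finset (Fin 3)) ⟨4268032, 12206599, 17079800, true, true, false⟩ where
  h0 := by decide +kernel
  h1 := by decide +kernel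
  h2 := by decide +kernel
  k0 := by decide
  k1 := by decide
  k2 := by decide

theorem ce01a : (∀ k ∈ btKeys t01, k < 2 ^ 25) ∧
    (toFam (btKeys t01) : Fam 25) = cells KK LA ({0, 1} : Finset (Fin 3)) :=
  chkCells_sound lab01a (by decide) (MJ := 16474631) (by decide +kernel) K_lt c01

theorem co01a : Relation.ReflTransGen CollapseStep (cells KK LA ({0, 1} : Finset (Fin 3)))
      (toFam (65537 :: mapL Prod.fst o01)) ∧
      IsGraph 2 3 (toFam (65537 :: mapL Prod.fst o01) : Fam 25) := by
  have h := collapseOK_sound ce01a.1 k01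
  rw [ce01a.2] at h
  exact h

theorem lab02a : LabSpec LA ({0, 2} : Finset (Fin 3)) ⟨4268032, 12206599, 17079800, true, false, true⟩ where
  h0 := by decide +kernel
  h1 := by decide +kernel
  h2 := by decide +kernel
  k0 := by decide
  k1 := by decide
  k2 := by decide

theorem ce02a : (∀ k ∈ btKeys t02, k < 2 ^ 25) ∧
    (toFam (btKeys t02) : Fam 25) = cells KK LA ({0, 2} : Finset (Fin 3)) :=
  chkCells_sound lab02a (by decide) (MJ := 21347832) (by decide +kernel) K_lt c02

theorem co02a : Relation.ReflTransGen CollapseStep (cells KK LA ({0, 2} : Finset (Fin 3)))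
      (toFam (8200 :: mapL Prod.fst o02)) ∧
      IsGraph 2 3 (toFam (8200 :: mapL Prod.fst o02) : Fam 25) := by
  have h := collapseOK_sound ce02a.1 k02
  rw [ce02a.2] at h
  exact h

theorem lab12a : LabSpec LA ({1, 2} : Finset (Fin 3)) ⟨4268032, 12206599, 17079800, false, true, true⟩ where
  h0 := by decide +kernel
  h1 := by decide +kernel
  h2 := by decide +kernel
  k0 := by decide
  k1 := by decide
  k2 := by decide

theorem ce12a : (∀ k ∈ btKeys t12a, k < 2 ^ 25) ∧
    (toFam (btKeys t12a) : Fam 25) = cells KK LA ({1, 2} : Finset (Fin 3)) :=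
  chkCells_sound lab12a (by decide) (MJ := 29286399) (by decide +kernel) K_lt c12a

theorem co12a : Relation.ReflTransGen CollapseStep (cells KK LA ({1, 2} : Finset (Fin 3)))
      (toFam (9 :: mapL Prod.fst o12a)) ∧
      IsGraph 2 3 (toFam (9 :: mapL Prod.fst o12a) : Fam 25) := by
  have h := collapseOK_sound ce12a.1 k12a
  rw [ce12a.2] at h
  exact h

theorem lab012a : LabSpec LA (Finset.univ : Finset (Fin 3)) ⟨4268032, 12206599, 17079800, true, true, true⟩ where
  h0 := by decide +kernel
  h1 := by decide +kernel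
  h2 := by decide +kernel
  k0 := by decide
  k1 := by decide
  k2 := by decide

theorem ce012a : (∀ k ∈ btKeys t012, k < 2 ^ 25) ∧
    (toFam (btKeys t012) : Fam 25) = cells KK LA (Finset.univ : Finset (Fin 3)) :=
  chkCells_sound lab012a (by decide) (MJ := 33554431) (by decide +kernel) K_lt c012

theorem sua : IsConn (cells KK LA Finset.univ) ∧
    ∑ s ∈ cells KK LA Finset.univ, (-1 : ℤ) ^ (s.card - 3) = 2 - 2 * 3 := by
  have h := surfOK_sound ce012a.1 s012
  rw [ce012a.2] at h
  exact h

theorem c0b : chkCells 25 ⟨4268032, 12206343, 17080056, true, false, false⟩ 4268032 facT t0 = true := by decide +kernel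

theorem lab0b : LabSpec LB ({0} : Finset (Fin 3)) ⟨4268032, 12206343, 17080056, true, false, false⟩ where
  h0 := by decide +kernel
  h1 := by decide +kernel
  h2 := by decide +kernel
  k0 := by decide
  k1 := by decide
  k2 := by decide

theorem ce0b : (∀ k ∈ btKeys t0, k < 2 ^ 25) ∧
    (toFam (btKeys t0) : Fam 25) = cells KK LB ({0} : Finset (Fin 3)) :=
  chkCells_sound lab0b (by decide) (MJ := 4268032) (by decide +kernel) K_lt c0b

theorem co0b : Relation.ReflTransGen CollapseStep (cells KK LB ({0} : Finset (Fin 3)))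
      (toFam (8192 :: mapL Prod.fst o0)) ∧
      IsGraph 1 1 (toFam (8192 :: mapL Prod.fst o0) : Fam 25) := by
  have h := collapseOK_sound ce0b.1 k0
  rw [ce0b.2] at h
  exact h

theorem ci0b : CircLike (covP KK fun u v => ((tab u v : ℕ) : ZMod 5))
    (covT KK fun u v => ((tab u v : ℕ) : ZMod 5)) (sector KK LB 0)
    (2 : ZMod 5) := by
  have h := circLike_tri K_coc co0b.1 (a := 13) (b := 16) (c := 22) (by decide) (by decide)
    (by decide) (by decide +kernel)
  have e : (((tab (13 : Fin 25) (16 : Fin 25) : ℕ) : ZMod 5) +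
      ((tab (16 : Fin 25) (22 : Fin 25) : ℕ) : ZMod 5) +
      ((tab (22 : Fin 25) (13 : Fin 25) : ℕ) : ZMod 5)) = 2 := by decide +kernel
  rw [e] at h
  exact h

theorem lab1b : LabSpec LB ({1} : Finset (Fin 3)) ⟨4268032, 12206343, 17080056, false, true, false⟩ where
  h0 := by decide +kernel
  h1 := by decide +kernel
  h2 := by decide +kernel
  k0 := by decide
  k1 := by decide
  k2 := by decide

theorem ce1b : (∀ k ∈ btKeys t1b, k < 2 ^ 25) ∧
    (toFam (btKeys t1b) : Fam 25) = cells KK LB ({1} : Finset (Fin 3)) :=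
  chkCells_sound lab1b (by decide) (MJ := 12206343) (by decide +kernel) K_lt c1b

theorem co1b : Relation.ReflTransGen CollapseStep (cells KK LB ({1} : Finset (Fin 3)))
      (toFam (1 :: mapL Prod.fst o1b)) ∧
      IsGraph 1 1 (toFam (1 :: mapL Prod.fst o1b) : Fam 25) := by
  have h := collapseOK_sound ce1b.1 k1b
  rw [ce1b.2] at h
  exact h

theorem ci1b : CircLike (covP KK fun u v => ((tab u v : ℕ) : ZMod 5))
    (covT KK fun u v => ((tab u v : ℕ) : ZMod 5)) (sector KK LB 1)
    (1 : ZMod 5) := by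
  have h := circLike_tri K_coc co1b.1 (a := 0) (b := 14) (c := 2) (by decide) (by decide)
    (by decide) (by decide +kernel)
  have e : (((tab (0 : Fin 25) (14 : Fin 25) : ℕ) : ZMod 5) +
      ((tab (14 : Fin 25) (2 : Fin 25) : ℕ) : ZMod 5) +
      ((tab (2 : Fin 25) (0 : Fin 25) : ℕ) : ZMod 5)) = 1 := by decide +kernel
  rw [e] at h
  exact h

theorem lab2b : LabSpec LB ({2} : Finset (Fin 3)) ⟨4268032, 12206343, 17080056, false, false, true⟩ where
  h0 := by decide +kernel
  h1 := by decide +kernel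
  h2 := by decide +kernel
  k0 := by decide
  k1 := by decide
  k2 := by decide

theorem ce2b : (∀ k ∈ btKeys t2b, k < 2 ^ 25) ∧
    (toFam (btKeys t2b) : Fam 25) = cells KK LB ({2} : Finset (Fin 3)) :=
  chkCells_sound lab2b (by decide) (MJ := 17080056) (by decide +kernel) K_lt c2b

theorem co2b : Relation.ReflTransGen CollapseStep (cells KK LB ({2} : Finset (Fin 3)))
      (toFam (512 :: mapL Prod.fst o2b)) ∧
      IsGraph 1 1 (toFam (512 :: mapL Prod.fst o2b) : Fam 25) := by
  have h := collapseOK_sound ce2b.1 k2b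
  rw [ce2b.2] at h
  exact h

theorem ci2b : CircLike (covP KK fun u v => ((tab u v : ℕ) : ZMod 5))
    (covT KK fun u v => ((tab u v : ℕ) : ZMod 5)) (sector KK LB 2)
    (1 : ZMod 5) := by
  have h := circLike_tri K_coc co2b.1 (a := 9) (b := 10) (c := 11) (by decide) (by decide)
    (by decide) (by decide +kernel)
  have e : (((tab (9 : Fin 25) (10 : Fin 25) : ℕ) : ZMod 5) +
      ((tab (10 : Fin 25) (11 : Fin 25) : ℕ) : ZMod 5) +
      ((tab (11 : Fin 25) (9 : Fin 25) : ℕ) : ZMod 5)) = 1 := by decide +kernel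
  rw [e] at h
  exact h

theorem c01b : chkCells 25 ⟨4268032, 12206343, 17080056, true, true, false⟩ 16474375 facT t01 = true := by decide +kernel

theorem lab01b : LabSpec LB ({0, 1} : Finset (Fin 3)) ⟨4268032, 12206343, 17080056, true, true, false⟩ where
  h0 := by decide +kernel
  h1 := by decide +kernel
  h2 := by decide +kernel
  k0 := by decide
  k1 := by decide
  k2 := by decide

theorem ce01b : (∀ k ∈ btKeys t01, k < 2 ^ 25) ∧
    (toFam (btKeys t01) : Fam 25) = cells KK LB ({0, 1} : Finset (Fin 3)) :=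
  chkCells_sound lab01b (by decide) (MJ := 16474375) (by decide +kernel) K_lt c01b

theorem co01b : Relation.ReflTransGen CollapseStep (cells KK LB ({0, 1} : Finset (Fin 3)))
      (toFam (65537 :: mapL Prod.fst o01)) ∧
      IsGraph 2 3 (toFam (65537 :: mapL Prod.fst o01) : Fam 25) := by
  have h := collapseOK_sound ce01b.1 k01
  rw [ce01b.2] at h
  exact h

theorem c02b : chkCells 25 ⟨4268032, 12206343, 17080056, true, false, true⟩ 21348088 facT t02 = true := by decide +kernel

theorem lab02b : LabSpec LB ({0, 2} : Finset (Fin 3)) ⟨4268032, 12206343, 17080056, true, false, true⟩ where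
  h0 := by decide +kernel
  h1 := by decide +kernel
  h2 := by decide +kernel
  k0 := by decide
  k1 := by decide
  k2 := by decide

theorem ce02b : (∀ k ∈ btKeys t02, k < 2 ^ 25) ∧
    (toFam (btKeys t02) : Fam 25) = cells KK LB ({0, 2} : Finset (Fin 3)) :=
  chkCells_sound lab02b (by decide) (MJ := 21348088) (by decide +kernel) K_lt c02b

theorem co02b : Relation.ReflTransGen CollapseStep (cells KK LB ({0, 2} : Finset (Fin 3)))
      (toFam (8200 :: mapL Prod.fst o02)) ∧
      IsGraph 2 3 (toFam (8200 :: mapL Prod.fst o02) : Fam 25) := by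
  have h := collapseOK_sound ce02b.1 k02
  rw [ce02b.2] at h
  exact h

theorem lab12b : LabSpec LB ({1, 2} : Finset (Fin 3)) ⟨4268032, 12206343, 17080056, false, true, true⟩ where
  h0 := by decide +kernel
  h1 := by decide +kernel
  h2 := by decide +kernel
  k0 := by decide
  k1 := by decide
  k2 := by decide

theorem ce12b : (∀ k ∈ btKeys t12b, k < 2 ^ 25) ∧
    (toFam (btKeys t12b) : Fam 25) = cells KK LB ({1, 2} : Finset (Fin 3)) :=
  chkCells_sound lab12b (by decide) (MJ := 29286399) (by decide +kernel) K_lt c12b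

theorem co12b : Relation.ReflTransGen CollapseStep (cells KK LB ({1, 2} : Finset (Fin 3)))
      (toFam (9 :: mapL Prod.fst o12b)) ∧
      IsGraph 2 3 (toFam (9 :: mapL Prod.fst o12b) : Fam 25) := by
  have h := collapseOK_sound ce12b.1 k12b
  rw [ce12b.2] at h
  exact h

theorem c012b : chkCells 25 ⟨4268032, 12206343, 17080056, true, true, true⟩ 33554431 facT t012 = true := by decide +kernel

theorem lab012b : LabSpec LB (Finset.univ : Finset (Fin 3)) ⟨4268032, 12206343, 17080056, true, true, true⟩ where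
  h0 := by decide +kernel
  h1 := by decide +kernel
  h2 := by decide +kernel
  k0 := by decide
  k1 := by decide
  k2 := by decide

theorem ce012b : (∀ k ∈ btKeys t012, k < 2 ^ 25) ∧
    (toFam (btKeys t012) : Fam 25) = cells KK LB (Finset.univ : Finset (Fin 3)) :=
  chkCells_sound lab012b (by decide) (MJ := 33554431) (by decide +kernel) K_lt c012b

theorem sub : IsConn (cells KK LB Finset.univ) ∧
    ∑ s ∈ cells KK LB Finset.univ, (-1 : ℤ) ^ (s.card - 3) = 2 - 2 * 3 := by
  have h := surfOK_sound ce012b.1 s012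
  rw [ce012b.2] at h
  exact h

theorem trisection_a : IsTrisection KK LA 3 1 := by
  refine ⟨fun i => ?_, fun i j hij => ?_, sua.1, by exact_mod_cast sua.2⟩
  · fin_cases i
    · exact ⟨_, co0a⟩
    · exact ⟨_, co1a⟩
    · exact ⟨_, co2a⟩
  · fin_cases i <;> fin_cases j
    · exact absurd rfl hij
    · exact ⟨_, co01a⟩
    · exact ⟨_, co02a⟩
    · rw [Finset.pair_comm]; exact ⟨_, co01a⟩
    · exact absurd rfl hij
    · exact ⟨_, co12a⟩
    · rw [Finset.pair_comm]; exact ⟨_, co02a⟩
    · rw [Finset.pair_comm]; exact ⟨_, co12a⟩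
    · exact absurd rfl hij

theorem trisection_b : IsTrisection KK LB 3 1 := by
  refine ⟨fun i => ?_, fun i j hij => ?_, sub.1, by exact_mod_cast sub.2⟩
  · fin_cases i
    · exact ⟨_, co0b⟩
    · exact ⟨_, co1b⟩
    · exact ⟨_, co2b⟩
  · fin_cases i <;> fin_cases j
    · exact absurd rfl hij
    · exact ⟨_, co01b⟩
    · exact ⟨_, co02b⟩
    · rw [Finset.pair_comm]; exact ⟨_, co01b⟩
    · exact absurd rfl hij
    · exact ⟨_, co12b⟩
    · rw [Finset.pair_comm]; exact ⟨_, co02b⟩
    · rw [Finset.pair_comm]; exact ⟨_, co12b⟩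
    · exact absurd rfl hij

/-- holonomies of the first trisection -/
def hA : Fin 3 → ZMod 5 := ![2, 1, 2]

/-- holonomies of the second trisection -/
def hB : Fin 3 → ZMod 5 := ![2, 1, 1]

theorem circ_a : ∀ i, CircLike (covP KK fun u v => ((tab u v : ℕ) : ZMod 5))
    (covT KK fun u v => ((tab u v : ℕ) : ZMod 5)) (sector KK LA i) (hA i) := by
  intro i
  fin_cases i
  · exact ci0a
  · exact ci1a
  · exact ci2a

theorem circ_b : ∀ i, CircLike (covP KK fun u v => ((tab u v : ℕ) : ZMod 5))
    (covT KK fun u v => ((tab u v : ℕ) : ZMod 5)) (sector KK LB i) (hB i) := by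
  intro i
  fin_cases i
  · exact ci0b
  · exact ci1b
  · exact ci2b

theorem hol_perm : ∀ σ : Equiv.Perm (Fin 3), ∃ i, hA i ≠ hB (σ i) ∧ hA i ≠ -hB (σ i) := by
  decide +kernel

theorem not_iso (X : Type) [TopologicalSpace X] (e : Body KK ≃ₜ X) (φ : X ≃ₜ X)
    (hφ : (φ : C(X, X)).Homotopic (ContinuousMap.id X)) (σ : Equiv.Perm (Fin 3)) :
    ¬ ∀ i, φ '' (e '' sector KK LA i) = e '' sector KK LB (σ i) :=
  not_isotopic K_coc circ_a circ_b hol_perm X e φ hφ σ

end Pool.Agent.TH640.Data
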